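import Pool.Agent.H58.TP.Core

/-!
# Tangent subplanes of order `p` in a translation plane of order `p^2`

The difference sets of the `D f`, `f ∈ F`, are pairwise disjoint; they have at least `p - 1` elements, so
they have exactly `p - 1` elements, and `D f` is a coset of a subgroup `H f` of order `p`, with
`H f ⊓ H g = ⊥`.  Then `Λ` is closed under `l - l' + l''`, and the slopes of `Λ` are all slopes.
-/

set_option autoImplicit false

open Finset

namespace Pool.Agent.H58.TP

variable {p : ℕ} {Q W M : Type} [AddCommGroup Q] [AddCommGroup W] [Module (ZMod p) Q]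
  [Module (ZMod p) W]
variable {N : M → Q →ₗ[ZMod p] W} {F : Finset Q} {D : Q → Finset W} {Λ : Finset (M × W)}

theorem Tang.diff_ne (hT : Tang N F D Λ)
    (bij : ∀ q : Q, q ≠ 0 → Function.Injective (fun Y => N Y q)) {f g : Q} (hf : f ∈ F)
    (hg : g ∈ F) (hfg : f ≠ g) {a b c d : W} (ha : a ∈ D f) (hb : b ∈ D f) (hc : c ∈ D g)
    (hd : d ∈ D g) (hab : a ≠ b) : a - b ≠ c - d := by
  intro h
  obtain ⟨l, hl, h1, h2⟩ := hT.join f hf g hg hfg a ha c hc
  obtain ⟨l', hl', h3, h4⟩ := hT.join f hf g hg hfg b hb d hd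
  have hne : l ≠ l' := by
    rintro rfl
    exact hab (h1.symm.trans h3)
  refine hT.slope l hl l' hl' hne (bij _ (sub_ne_zero.2 hfg) ?_)
  change N l.1 (f - g) = N l'.1 (f - g)
  unfold ev at h1 h2 h3 h4
  rw [map_sub, map_sub]
  have e1 : N l.1 f - N l.1 g = a - c := by rw [← h1, ← h2]; abel
  have e2 : N l'.1 f - N l'.1 g = b - d := by rw [← h3, ← h4]; abel
  rw [e1, e2]
  have e3 : a - c - (b - d) = (a - b) - (c - d) := by abel
  rw [← sub_eq_zero, e3, h, sub_self]

/-- the set of nonzero differences -/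
def dl [DecidableEq W] (s : Finset W) : Finset W :=
  ((s ×ˢ s).image (fun x => x.1 - x.2)).erase 0

theorem mem_dl [DecidableEq W] {s : Finset W} {v : W} :
    v ∈ dl s ↔ v ≠ 0 ∧ ∃ a ∈ s, ∃ b ∈ s, a - b = v := by
  unfold dl
  rw [Finset.mem_erase, Finset.mem_image]
  constructor
  · rintro ⟨h, ⟨a, b⟩, hab, h2⟩
    rw [Finset.mem_product] at hab
    exact ⟨h, a, hab.1, b, hab.2, h2⟩
  · rintro ⟨h, a, ha, b, hb, h2⟩
    exact ⟨h, (a, b), Finset.mem_product.2 ⟨ha, hb⟩, h2⟩

theorem sub_image_subset [DecidableEq W] {s : Finset W} {a : W} (ha : a ∈ s) :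
    (s.erase a).image (fun x => x - a) ⊆ dl s := by
  intro v hv
  rw [Finset.mem_image] at hv
  obtain ⟨x, hx, rfl⟩ := hv
  rw [Finset.mem_erase] at hx
  exact mem_dl.2 ⟨sub_ne_zero.2 hx.1, x, hx.2, a, ha, rfl⟩

theorem card_sub_image [DecidableEq W] {s : Finset W} {a : W} (ha : a ∈ s) :
    ((s.erase a).image (fun x => x - a)).card = s.card - 1 := by
  rw [Finset.card_image_of_injective _ (sub_left_injective), Finset.card_erase_of_mem ha]

/-- the sets `D f` are closed under `a - b + c` -/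
theorem Tang.coset [Fintype W] (hT : Tang N F D Λ)
    (bij : ∀ q : Q, q ≠ 0 → Function.Injective (fun Y => N Y q))
    (hm : ∀ f ∈ F, (D f).card = p) (hF : F.card = p + 1) (hW : Fintype.card W = p ^ 2)
    {f : Q} (hf : f ∈ F) {a b c : W} (ha : a ∈ D f) (hb : b ∈ D f) (hc : c ∈ D f) :
    a - b + c ∈ D f := by
  classical
  by_cases hab : a = b
  · rw [hab, sub_self, zero_add]
    exact hc
  have hp : 2 ≤ p := by
    rw [← hm f hf]
    exact hT.two f hf
  have hdisj : (F : Set Q).PairwiseDisjoint (fun f => dl (D f)) := by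
    intro g hg g' hg' hne
    rw [Function.onFun, Finset.disjoint_left]
    intro v hv hv'
    obtain ⟨h0, x, hx, y, hy, h1⟩ := mem_dl.1 hv
    obtain ⟨-, x', hx', y', hy', h2⟩ := mem_dl.1 hv'
    refine hT.diff_ne bij hg hg' hne hx hy hx' hy' ?_ (h1.trans h2.symm)
    rintro rfl
    exact h0 (by rw [← h1, sub_self])
  have h1 : ∑ g ∈ F, (dl (D g)).card ≤ p ^ 2 - 1 := by
    rw [← Finset.card_biUnion hdisj, ← hW, ← Finset.card_univ,
      ← Finset.card_erase_of_mem (Finset.mem_univ (0 : W))]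
    refine Finset.card_le_card fun v hv => ?_
    rw [Finset.mem_biUnion] at hv
    obtain ⟨g, -, hv⟩ := hv
    exact Finset.mem_erase.2 ⟨(mem_dl.1 hv).1, Finset.mem_univ _⟩
  have hlow : ∀ g ∈ F, p - 1 ≤ (dl (D g)).card := by
    intro g hg
    obtain ⟨x, hx⟩ := Finset.card_pos.1 (by have := hT.two g hg; omega : 0 < (D g).card)
    rw [← hm g hg, ← card_sub_image hx]
    exact Finset.card_le_card (sub_image_subset hx)
  have h2 : (dl (D f)).card ≤ p - 1 := by
    rw [← Finset.add_sum_erase F _ hf] at h1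
    have h3 : (F.erase f).card • (p - 1) ≤ ∑ g ∈ F.erase f, (dl (D g)).card :=
      Finset.card_nsmul_le_sum _ _ _ fun g hg => hlow g (Finset.mem_of_mem_erase hg)
    rw [Finset.card_erase_of_mem hf, hF, Nat.add_sub_cancel, smul_eq_mul] at h3
    have h4 : p ^ 2 - 1 = p * (p - 1) + (p - 1) := by
      obtain ⟨k, rfl⟩ : ∃ k, p = k + 1 := ⟨p - 1, by omega⟩
      rw [Nat.add_sub_cancel]
      have : (k + 1) ^ 2 = (k + 1) * k + k + 1 := by ring
      omega
    omega
  have h3 : ((D f).erase c).image (fun x => x - c) = dl (D f) := by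
    refine Finset.eq_of_subset_of_card_le (sub_image_subset hc) ?_
    rw [card_sub_image hc, hm f hf]
    exact h2
  have h4 : a - b ∈ dl (D f) := mem_dl.2 ⟨sub_ne_zero.2 hab, a, ha, b, hb, rfl⟩
  rw [← h3, Finset.mem_image] at h4
  obtain ⟨x, hx, h5⟩ := h4
  rw [← h5, sub_add_cancel]
  exact Finset.mem_of_mem_erase hx

/-- the stabiliser of a finite set -/
def Hs (s : Finset W) : AddSubgroup W where
  carrier := {v | ∀ a ∈ s, v + a ∈ s}
  zero_mem' := fun a ha => by rwa [zero_add]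
  add_mem' := fun {v w} hv hw a ha => by
    rw [add_assoc]
    exact hv _ (hw a ha)
  neg_mem' := fun {v} hv a ha => by
    classical
    have h1 : s.image (fun x => v + x) = s := by
      refine Finset.eq_of_subset_of_card_le ?_ ?_
      · intro x hx
        rw [Finset.mem_image] at hx
        obtain ⟨y, hy, rfl⟩ := hx
        exact hv y hy
      · rw [Finset.card_image_of_injective _ (add_right_injective v)]
    rw [← h1, Finset.mem_image] at ha
    obtain ⟨y, hy, h2⟩ := ha
    rw [← h2, neg_add_cancel_left]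
    exact hy

theorem smul_mem_Hs {s : Finset W} {v : W} (hv : v ∈ Hs s) (c : ZMod p) : c • v ∈ Hs s := by
  have h := (AddSubgroup.toZModSubmodule p (Hs s)).smul_mem c
    (show v ∈ AddSubgroup.toZModSubmodule p (Hs s) from hv)
  exact h

theorem span_pair_top [Fact p.Prime] [Finite Q] (hQ : Module.finrank (ZMod p) Q = 2) {v w : Q}
    (hv : v ≠ 0) (hw : ∀ c : ZMod p, w ≠ c • v) (x : Q) : ∃ a b : ZMod p, x = a • v + b • w := by
  have h1 : LinearIndependent (ZMod p) ![v, w] := by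
    rw [LinearIndependent.pair_iff]
    intro s t hst
    have ht : t = 0 := by
      by_contra ht
      refine hw (-(t⁻¹ * s)) ?_
      have h2 : t • w = -(s • v) := by
        rw [eq_neg_iff_add_eq_zero, add_comm]
        exact hst
      calc w = t⁻¹ • t • w := by rw [smul_smul, inv_mul_cancel₀ ht, one_smul]
        _ = _ := by rw [h2, smul_neg, smul_smul, neg_smul]
    rw [ht, zero_smul, add_zero] at hst
    exact ⟨(smul_eq_zero.1 hst).resolve_right hv, ht⟩
  have h2 := h1.span_eq_top_of_card_eq_finrank' (by simp [hQ])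
  have h3 : x ∈ Submodule.span (ZMod p) (Set.range ![v, w]) := by
    rw [h2]
    exact Submodule.mem_top
  rw [Matrix.range_cons, Matrix.range_cons, Matrix.range_empty, Set.union_empty,
    Set.singleton_union, Submodule.mem_span_pair] at h3
  obtain ⟨a, b, h4⟩ := h3
  exact ⟨a, b, h4.symm⟩

section

variable (hT : Tang N F D Λ) (bij : ∀ q : Q, q ≠ 0 → Function.Injective (fun Y => N Y q))
  (hcos : ∀ f ∈ F, ∀ a ∈ D f, ∀ b ∈ D f, ∀ c ∈ D f, a - b + c ∈ D f)

include hcos in
theorem sub_mem_Hs {f : Q} (hf : f ∈ F) {a b : W} (ha : a ∈ D f) (hb : b ∈ D f) :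
    a - b ∈ Hs (D f) := fun c hc => hcos f hf a ha b hb c hc

include hT bij in
theorem Hs_inf {f g : Q} (hf : f ∈ F) (hg : g ∈ F) (hfg : f ≠ g) {v : W} (h1 : v ∈ Hs (D f))
    (h2 : v ∈ Hs (D g)) : v = 0 := by
  obtain ⟨a, ha⟩ := Finset.card_pos.1 (by have := hT.two f hf; omega : 0 < (D f).card)
  obtain ⟨c, hc⟩ := Finset.card_pos.1 (by have := hT.two g hg; omega : 0 < (D g).card)
  by_contra hv
  refine hT.diff_ne bij hf hg hfg (h1 a ha) ha (h2 c hc) hc ?_ ?_
  · intro h
    exact hv (by simpa using h)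
  · rw [add_sub_cancel_right, add_sub_cancel_right]

include hT bij hcos in
theorem not_collinear {f g g' : Q} (hf : f ∈ F) (hg : g ∈ F) (hg' : g' ∈ F) (h1 : f ≠ g)
    (h2 : f ≠ g') (h3 : g ≠ g') (c : ZMod p) : f - g ≠ c • (g' - g) := by
  classical
  intro h
  obtain ⟨x, hx⟩ := Finset.card_pos.1 (by have := hT.two g hg; omega : 0 < (D g).card)
  obtain ⟨a, ha⟩ := Finset.card_pos.1 (by have := hT.two g' hg'; omega : 0 < (D g').card)
  obtain ⟨b, hb, hab⟩ := exists_other (hT.two g' hg') a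
  obtain ⟨l, hl, e1, e2⟩ := hT.join g hg g' hg' h3 x hx a ha
  obtain ⟨l', hl', e3, e4⟩ := hT.join g hg g' hg' h3 x hx b hb
  have key : ∀ k : M × W, ev N k f = ev N k g + c • (ev N k g' - ev N k g) := by
    intro k
    have h5 : f = g + c • (g' - g) := by rw [← h, add_sub_cancel]
    unfold ev
    rw [h5]
    simp only [map_add, map_smul, map_sub]
    have : N k.1 g' + k.2 - (N k.1 g + k.2) = N k.1 g' - N k.1 g := by abel
    rw [this]
    abel
  have h6 : ev N l' f - ev N l f = c • (b - a) := by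
    rw [key l, key l', e1, e2, e3, e4, add_sub_add_left_eq_sub, ← smul_sub]
    congr 1
    abel
  have h7 : c • (b - a) ∈ Hs (D f) := by
    rw [← h6]
    exact sub_mem_Hs hcos hf (hT.val l' hl' f hf) (hT.val l hl f hf)
  have h8 : c • (b - a) ∈ Hs (D g') := smul_mem_Hs (sub_mem_Hs hcos hg' hb ha) c
  have h9 := Hs_inf hT bij hf hg' h2 h7 h8
  rw [← h6] at h9
  have h10 : l' = l := ev_inj bij h1 (sub_eq_zero.1 h9) (e3.trans e1.symm)
  rw [h10] at e4
  exact hab (e4.symm.trans e2)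

include hT bij hcos in
theorem vanish [Fact p.Prime] [Finite Q] (hQ : Module.finrank (ZMod p) Q = 2)
    (hF : 4 ≤ F.card) {g g' : Q} (hg : g ∈ F) (hg' : g' ∈ F) (hgg' : g ≠ g')
    {A : Q →ₗ[ZMod p] W} {b : W} (h1 : A g + b = 0) (h2 : A g' + b = 0)
    (hA : ∀ f ∈ F, A f + b ∈ Hs (D f)) : A = 0 := by
  classical
  obtain ⟨f1, hf1, h3, h4⟩ := exists_third hT.three g g'
  obtain ⟨f2, hf2, h5, h6, h7⟩ : ∃ f2 ∈ F, f2 ≠ g ∧ f2 ≠ g' ∧ f2 ≠ f1 := by
    have h8 : (((F.erase g).erase g').erase f1).card ≠ 0 := by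
      have h2 := Finset.pred_card_le_card_erase (s := F) (a := g)
      have h4 := Finset.pred_card_le_card_erase (s := F.erase g) (a := g')
      have h6 := Finset.pred_card_le_card_erase (s := (F.erase g).erase g') (a := f1)
      omega
    obtain ⟨h, hh⟩ := Finset.card_pos.1 (Nat.pos_of_ne_zero h8)
    rw [Finset.mem_erase, Finset.mem_erase, Finset.mem_erase] at hh
    exact ⟨h, hh.2.2.2, hh.2.2.1, hh.2.1, hh.1⟩
  have hsp := span_pair_top hQ (sub_ne_zero.2 hgg'.symm)
    (not_collinear hT bij hcos hf1 hg hg' h3 h4 hgg')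
  have e1 : A (g' - g) = 0 := by
    rw [map_sub, eq_neg_of_add_eq_zero_left h1, eq_neg_of_add_eq_zero_left h2, sub_self]
  have e2 : ∀ f, A f + b = A (f - g) := by
    intro f
    rw [map_sub, eq_neg_of_add_eq_zero_left h1, sub_neg_eq_add]
  obtain ⟨α, β, h8⟩ := hsp (f2 - g)
  have hβ : β ≠ 0 := by
    intro hβ
    rw [hβ, zero_smul, add_zero] at h8
    exact not_collinear hT bij hcos hf2 hg hg' h5 h6 hgg' α h8
  have h9 : A (f1 - g) = 0 := by
    refine Hs_inf hT bij hf1 hf2 h7.symm ?_ ?_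
    · rw [← e2]
      exact hA f1 hf1
    · have h10 : β • A (f1 - g) ∈ Hs (D f2) := by
        have := hA f2 hf2
        rw [e2, h8, map_add, map_smul, map_smul, e1, smul_zero, zero_add] at this
        exact this
      have h11 := smul_mem_Hs (p := p) h10 β⁻¹
      rwa [smul_smul, inv_mul_cancel₀ hβ, one_smul] at h11
  ext x
  obtain ⟨α', β', h10⟩ := hsp x
  rw [h10, map_add, map_smul, map_smul, e1, h9, smul_zero, smul_zero, add_zero]
  rfl

include hT bij hcos in
theorem add_closed [Fact p.Prime] [Finite Q] (hQ : Module.finrank (ZMod p) Q = 2)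
    (hF : 4 ≤ F.card) {l l' l'' : M × W} (hl : l ∈ Λ) (hl' : l' ∈ Λ) (hl'' : l'' ∈ Λ) :
    ∃ μ ∈ Λ, N μ.1 = N l.1 - N l'.1 + N l''.1 := by
  classical
  obtain ⟨g, hg⟩ := Finset.card_pos.1 (by omega : 0 < F.card)
  obtain ⟨g', hg', hne, -⟩ := exists_third hT.three g g
  obtain ⟨μ, hμ, h1, h2⟩ := hT.join g hg g' hg' hne.symm _
    (hcos g hg _ (hT.val l hl g hg) _ (hT.val l' hl' g hg) _ (hT.val l'' hl'' g hg)) _
    (hcos g' hg' _ (hT.val l hl g' hg') _ (hT.val l' hl' g' hg') _ (hT.val l'' hl'' g' hg'))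
  refine ⟨μ, hμ, ?_⟩
  have key : ∀ f, (N l.1 - N l'.1 + N l''.1 - N μ.1) f + (l.2 - l'.2 + l''.2 - μ.2) =
      (ev N l f - ev N l' f) + (ev N l'' f - ev N μ f) := by
    intro f
    unfold ev
    simp only [LinearMap.sub_apply, LinearMap.add_apply]
    abel
  have h3 := vanish hT bij hcos hQ hF hg hg' hne.symm (A := N l.1 - N l'.1 + N l''.1 - N μ.1)
    (b := l.2 - l'.2 + l''.2 - μ.2) (by rw [key, h1]; abel) (by rw [key, h2]; abel)
    (fun f hf => by
      rw [key]
      exact (Hs (D f)).add_mem (sub_mem_Hs hcos hf (hT.val l hl f hf) (hT.val l' hl' f hf))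
        (sub_mem_Hs hcos hf (hT.val l'' hl'' f hf) (hT.val μ hμ f hf)))
  exact (sub_eq_zero.1 h3).symm

end

/-- a tangent subplane of order `p` in a translation plane of order `p^2`, `p` odd, forces an additive
spread set -/
theorem Tang.additive [Fact p.Prime] (hp2 : p ≠ 2) [Fintype W] [Fintype M] [Finite Q]
    (hQ : Module.finrank (ZMod p) Q = 2) (hW : Fintype.card W = p ^ 2)
    (hM : Fintype.card M = p ^ 2) (hT : Tang N F D Λ)
    (bij : ∀ q : Q, q ≠ 0 → Function.Injective (fun Y => N Y q))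
    (hm : ∀ f ∈ F, (D f).card = p) (Y Y' Y'' : M) : ∃ Z, N Z = N Y - N Y' + N Y'' := by
  classical
  obtain ⟨m, hm2, hmD, hmF, hmΛ⟩ := hT.card bij
  obtain ⟨g, hg⟩ := Finset.card_pos.1 (by have := hT.three; omega : 0 < F.card)
  have hmp : m = p := by rw [← hmD g hg, hm g hg]
  subst hmp
  have hp3 : 3 ≤ m := by
    have := (Fact.out : m.Prime).two_le
    omega
  have hcos : ∀ f ∈ F, ∀ a ∈ D f, ∀ b ∈ D f, ∀ c ∈ D f, a - b + c ∈ D f :=
    fun f hf a ha b hb c hc => hT.coset bij hm hmF hW hf ha hb hc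
  have hsurj : ∀ Y : M, ∃ l ∈ Λ, l.1 = Y := by
    have h1 : Λ.image Prod.fst = Finset.univ := by
      refine Finset.eq_univ_of_card _ ?_
      rw [Finset.card_image_of_injOn, hmΛ, hM]
      intro l hl l' hl' h
      by_contra hne
      exact hT.slope l hl l' hl' hne h
    intro Y
    have h2 := Finset.mem_univ Y
    rw [← h1, Finset.mem_image] at h2
    exact h2
  obtain ⟨l, hl, rfl⟩ := hsurj Y
  obtain ⟨l', hl', rfl⟩ := hsurj Y'
  obtain ⟨l'', hl'', rfl⟩ := hsurj Y''
  obtain ⟨μ, -, h⟩ := add_closed hT bij hcos hQ (by omega) hl hl' hl''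
  exact ⟨μ.1, h⟩

end Pool.Agent.H58.TP
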