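import Pool.Agent.H58.TP.Geo

/-!
# Coordinates with respect to two components, and the tangent case
-/

set_option autoImplicit false

open Configuration

namespace Pool.Agent.H58.TP

variable {P L : Type} [Membership P L] [ProjectivePlane P L]
variable {p : ℕ} {V : Type} [AddCommGroup V] [Module (ZMod p) V]
variable {linf : L} {e : V → P} {C : P → Submodule (ZMod p) V}

/-- the points at infinity other than `X` -/
abbrev Inf (P : Type) {L : Type} [Membership P L] (linf : L) (X : P) : Type :=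
  {Y : P // Y ∈ linf ∧ Y ≠ X}

namespace TPlane

/-- the spread set with respect to `X` and `Y₀` -/
noncomputable def sl (hP : TPlane p linf e C) {X : P} (hX : X ∈ linf) (Y₀ : P)
    (Y : Inf P linf X) : C Y₀ →ₗ[ZMod p] C X :=
  -((C X).projectionOnto (C Y.1) (hP.isCompl hX Y.2.1 Y.2.2.symm) ∘ₗ (C Y₀).subtype)

variable (hP : TPlane p linf e C) {X : P} (hX : X ∈ linf) {Y₀ : P} (hY₀ : Y₀ ∈ linf)
  (hXY : X ≠ Y₀)

include hP in
theorem mem_iff (Y : Inf P linf X) (q : C Y₀) (w : C X) :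
    (q : V) + w ∈ C Y.1 ↔ w = hP.sl hX Y₀ Y q := by
  rw [← Submodule.projectionOnto_apply_eq_zero_iff (hP.isCompl hX Y.2.1 Y.2.2.symm), map_add,
    Submodule.projectionOnto_apply_left]
  have h : hP.sl hX Y₀ Y q =
      -((C X).projectionOnto (C Y.1) (hP.isCompl hX Y.2.1 Y.2.2.symm) (q : V)) := rfl
  rw [h, add_comm, add_eq_zero_iff_eq_neg]

include hP hY₀ hXY in
theorem sl_bijective (q : C Y₀) (hq : q ≠ 0) :
    Function.Bijective (fun Y : Inf P linf X => hP.sl hX Y₀ Y q) := by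
  constructor
  · intro Y Y' h
    by_contra hne
    have h1 := (hP.mem_iff hX Y q (hP.sl hX Y₀ Y q)).2 rfl
    have h2 := (hP.mem_iff hX Y' q (hP.sl hX Y₀ Y q)).2 h
    have h3 := hP.inf_eq_bot Y.2.1 Y'.2.1 (fun h => hne (Subtype.ext h)) h1 h2
    apply hq
    ext
    refine hP.inf_eq_bot hX hY₀ hXY ?_ q.2
    rw [eq_neg_of_add_eq_zero_left h3]
    exact (C X).neg_mem (hP.sl hX Y₀ Y q).2
  · intro w
    have h1 : (q : V) + w ≠ 0 := by
      intro h
      apply hq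
      ext
      refine hP.inf_eq_bot hX hY₀ hXY ?_ q.2
      rw [eq_neg_of_add_eq_zero_left h]
      exact (C X).neg_mem w.2
    obtain ⟨Y, hY, h2⟩ := hP.exists_dir _ h1
    have hYX : Y ≠ X := by
      rintro rfl
      apply hq
      ext
      exact hP.inf_eq_bot hX hY₀ hXY (((C Y).add_mem_iff_left w.2).1 h2) q.2
    exact ⟨⟨Y, hY, hYX⟩, ((hP.mem_iff hX ⟨Y, hY, hYX⟩ q w).1 h2).symm⟩

include hP in
/-- the line with slope `Y` through the point `b` of `C X` -/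
theorem exists_slope_line (l : Inf P linf X × C X) :
    ∃ k : L, l.1.1 ∈ k ∧ k ≠ linf ∧
      ∀ (q : C Y₀) (w : C X), e ((q : V) + w) ∈ k ↔ w = ev (hP.sl hX Y₀) l q := by
  obtain ⟨k, h1, h2, h3, h4⟩ := hP.exists_line (l.2 : V) l.1.2.1
  refine ⟨k, h2, h3, fun q w => ?_⟩
  rw [h4]
  have h5 : (q : V) + w - l.2 = (q : V) + ((w - l.2 : C X) : V) := by
    rw [Submodule.coe_sub]
    abel
  rw [h5, hP.mem_iff hX l.1 q (w - l.2)]
  unfold ev
  exact sub_eq_iff_eq_add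

include hP hX hY₀ hXY in
theorem coord_inj {q q' : C Y₀} {w w' : C X} (h : (q : V) + w = q' + w') : q = q' ∧ w = w' := by
  have h1 : (q : V) - q' = w' - w := by
    rw [sub_eq_sub_iff_add_eq_add, h]
    abel
  have h2 : (q : V) - q' = 0 := by
    refine hP.inf_eq_bot hX hY₀ hXY ?_ ((C Y₀).sub_mem q.2 q'.2)
    rw [h1]
    exact (C X).sub_mem w'.2 w.2
  have h3 : q = q' := Subtype.ext (sub_eq_zero.1 h2)
  refine ⟨h3, ?_⟩
  rw [h3] at h
  exact Subtype.ext (add_left_cancel h)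

include hP hX hY₀ hXY in
/-- a closed set with exactly one point at infinity is a tangent subplane -/
theorem tang [Finite V] {S : Set P} (hS : Closed L S) (hXS : X ∈ S)
    (honly : ∀ x ∈ S, x ∈ linf → x = X) {q1 q2 : C Y₀} {w1 w2 u : C X} (hq1 : q1 ≠ 0)
    (hq2 : q2 ≠ 0) (hq12 : q1 ≠ q2) (hu0 : u ≠ 0) (h0 : e 0 ∈ S) (hu : e (u : V) ∈ S)
    (hA : e ((q1 : V) + w1) ∈ S) (hB : e ((q2 : V) + w2) ∈ S)
    (hncol : ∀ Y ∈ linf, ¬ ((q1 : V) + w1 ∈ C Y ∧ (q2 : V) + w2 ∈ C Y)) :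
    ∃ (F : Finset (C Y₀)) (D : C Y₀ → Finset (C X)) (Λ : Finset (Inf P linf X × C X)),
      Tang (hP.sl hX Y₀) F D Λ ∧ (0 : C Y₀) ∈ F ∧ q1 ∈ F ∧ q2 ∈ F ∧ (0 : C X) ∈ D 0 ∧
        w1 ∈ D q1 ∧ w2 ∈ D q2 := by
  classical
  have bij := hP.sl_bijective hX hY₀ hXY
  haveI : Finite (Inf P linf X) := by
    exact Finite.of_injective _ (bij q1 hq1).1
  cases nonempty_fintype (C Y₀)
  cases nonempty_fintype (C X)
  cases nonempty_fintype (Inf P linf X)
  let N := hP.sl hX Y₀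
  let F : Finset (C Y₀) := Finset.univ.filter fun q => ∃ w : C X, e ((q : V) + w) ∈ S
  let D : C Y₀ → Finset (C X) := fun q => Finset.univ.filter fun w => e ((q : V) + w) ∈ S
  let Λ : Finset (Inf P linf X × C X) := Finset.univ.filter fun l =>
    ∃ q q' : C Y₀, q ≠ q' ∧ e ((q : V) + ev N l q) ∈ S ∧ e ((q' : V) + ev N l q') ∈ S
  have mF : ∀ q, q ∈ F ↔ ∃ w : C X, e ((q : V) + w) ∈ S := fun q => by simp [F]
  have mD : ∀ q w, w ∈ D q ↔ e ((q : V) + w) ∈ S := fun q w => by simp [D]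
  have mΛ : ∀ l, l ∈ Λ ↔ ∃ q q' : C Y₀, q ≠ q' ∧ e ((q : V) + ev N l q) ∈ S ∧
      e ((q' : V) + ev N l q') ∈ S := fun l => by simp [Λ]
  have hev0 : ∀ l : Inf P linf X × C X, ev N l 0 = l.2 := fun l => by
    unfold ev
    rw [map_zero, zero_add]
  -- the line through two points
  have hjoin : ∀ q q' : C Y₀, q ≠ q' → ∀ w w' : C X, ∃ l : Inf P linf X × C X,
      ev N l q = w ∧ ev N l q' = w' := by
    intro q q' hqq w w'
    obtain ⟨Y, hY⟩ := (bij (q - q') (sub_ne_zero.2 hqq)).2 (w - w')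
    refine ⟨(Y, w - N Y q), ?_, ?_⟩
    · unfold ev
      simp
    · have h1 : N Y (q - q') = w - w' := hY
      rw [map_sub] at h1
      unfold ev
      have h2 : N Y q' = N Y q - (w - w') := by rw [← h1]; abel
      change N Y q' + (w - N Y q) = w'
      rw [h2]
      abel
  have hval : ∀ l ∈ Λ, ∀ f ∈ F, ev N l f ∈ D f := by
    intro l hl f hf
    obtain ⟨q, q', hqq, h1, h2⟩ := (mΛ l).1 hl
    obtain ⟨w, hw⟩ := (mF f).1 hf
    obtain ⟨k, a1, a2, a3⟩ := hP.exists_slope_line hX (Y₀ := Y₀) l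
    obtain ⟨k', b1, b2, b3, b4⟩ := hP.exists_line ((f : V) + w) hX
    rw [mD]
    refine hS.inter (hP.line_ne l.1.2.1 hX l.1.2.2 a2 a1 b2) h1 h2 ?_ ((a3 _ _).2 rfl)
      ((a3 _ _).2 rfl) hw hXS (hP.ne_inf hX _) b1 b2 ((a3 _ _).2 rfl) ((b4 _).2 ?_)
    · intro h
      exact hqq (hP.coord_inj hX hY₀ hXY (hP.inj h)).1
    · rw [add_sub_add_left_eq_sub]
      exact (C X).sub_mem (ev N l f).2 w.2
  have hmem : ∀ f ∈ F, ∀ g ∈ F, f ≠ g → ∀ l : Inf P linf X × C X, ev N l f ∈ D f →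
      ev N l g ∈ D g → l ∈ Λ := by
    intro f _ g _ hfg l h1 h2
    exact (mΛ l).2 ⟨f, g, hfg, (mD _ _).1 h1, (mD _ _).1 h2⟩
  have hF0 : (0 : C Y₀) ∈ F := (mF 0).2 ⟨0, by simpa using h0⟩
  have hF1 : q1 ∈ F := (mF _).2 ⟨w1, hA⟩
  have hF2 : q2 ∈ F := (mF _).2 ⟨w2, hB⟩
  have hD0 : (0 : C X) ∈ D 0 := (mD _ _).2 (by simpa using h0)
  have hD1 : w1 ∈ D q1 := (mD _ _).2 hA
  have hD2 : w2 ∈ D q2 := (mD _ _).2 hB
  have hDu : u ∈ D 0 := (mD _ _).2 (by simpa using hu)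
  refine ⟨F, D, Λ, ⟨?_, ?_, hval, ?_, ?_, ?_⟩, hF0, hF1, hF2, hD0, hD1, hD2⟩
  · -- three
    have h1 : ({0, q1, q2} : Finset (C Y₀)) ⊆ F := by
      intro x hx
      rw [Finset.mem_insert, Finset.mem_insert, Finset.mem_singleton] at hx
      rcases hx with rfl | rfl | rfl
      · exact hF0
      · exact hF1
      · exact hF2
    refine le_trans ?_ (Finset.card_le_card h1)
    rw [Finset.card_insert_of_notMem, Finset.card_pair hq12]
    rw [Finset.mem_insert, Finset.mem_singleton]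
    rintro (h | h)
    · exact hq1 h.symm
    · exact hq2 h.symm
  · -- two
    intro f hf
    by_cases hf0 : f = 0
    · rw [hf0]
      have h1 : ({0, u} : Finset (C X)) ⊆ D 0 := by
        intro x hx
        rw [Finset.mem_insert, Finset.mem_singleton] at hx
        rcases hx with rfl | rfl
        · exact hD0
        · exact hDu
      refine le_trans ?_ (Finset.card_le_card h1)
      rw [Finset.card_pair hu0.symm]
    · obtain ⟨l, h1, h2⟩ := hjoin 0 q1 hq1.symm 0 w1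
      obtain ⟨l', h3, h4⟩ := hjoin 0 q2 hq2.symm 0 w2
      have hl : l ∈ Λ := hmem 0 hF0 q1 hF1 hq1.symm l (h1 ▸ hD0) (h2 ▸ hD1)
      have hl' : l' ∈ Λ := hmem 0 hF0 q2 hF2 hq2.symm l' (h3 ▸ hD0) (h4 ▸ hD2)
      have h5 : ({ev N l f, ev N l' f} : Finset (C X)) ⊆ D f := by
        intro x hx
        rw [Finset.mem_insert, Finset.mem_singleton] at hx
        rcases hx with rfl | rfl
        · exact hval l hl f hf
        · exact hval l' hl' f hf
      refine le_trans ?_ (Finset.card_le_card h5)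
      rw [Finset.card_pair]
      intro h6
      have h7 : l = l' := ev_inj (fun q hq => (bij q hq).1) (Ne.symm hf0) (h1.trans h3.symm) h6
      rw [← h7] at h3 h4
      rw [hev0] at h1
      refine hncol l.1.1 l.1.2.1 ⟨?_, ?_⟩
      · rw [hP.mem_iff hX l.1]
        rw [← h2]
        unfold ev
        rw [h1, add_zero]
      · rw [hP.mem_iff hX l.1]
        rw [← h4]
        unfold ev
        rw [h1, add_zero]
  · -- join
    intro f hf g hg hfg a ha b hb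
    obtain ⟨l, h1, h2⟩ := hjoin f g hfg a b
    exact ⟨l, hmem f hf g hg hfg l (h1 ▸ ha) (h2 ▸ hb), h1, h2⟩
  · -- slope
    intro l hl l' hl' hne h
    obtain ⟨k, a1, a2, a3⟩ := hP.exists_slope_line hX (Y₀ := Y₀) l
    obtain ⟨k', b1, b2, b3⟩ := hP.exists_slope_line hX (Y₀ := Y₀) l'
    obtain ⟨q, q', hqq, h1, h2⟩ := (mΛ l).1 hl
    obtain ⟨r, r', hrr, h3, h4⟩ := (mΛ l').1 hl'
    have hkk : k ≠ k' := by
      intro hk
      apply hne
      have e1 := (b3 q (ev N l q)).1 (hk ▸ (a3 q (ev N l q)).2 rfl)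
      have e2 := (b3 q' (ev N l q')).1 (hk ▸ (a3 q' (ev N l q')).2 rfl)
      exact ev_inj (fun q hq => (bij q hq).1) hqq e1 e2
    have hZ : l.1.1 ∈ S := by
      refine hS.inter hkk h1 h2 (fun h => hqq (hP.coord_inj hX hY₀ hXY (hP.inj h)).1)
        ((a3 _ _).2 rfl) ((a3 _ _).2 rfl) h3 h4
        (fun h => hrr (hP.coord_inj hX hY₀ hXY (hP.inj h)).1) ((b3 _ _).2 rfl)
        ((b3 _ _).2 rfl) a1 ?_
      rw [h]
      exact b1
    exact l.1.2.2 (honly _ hZ l.1.2.1)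
  · -- meet
    intro l hl l' hl' hne
    obtain ⟨k, a1, a2, a3⟩ := hP.exists_slope_line hX (Y₀ := Y₀) l
    obtain ⟨k', b1, b2, b3⟩ := hP.exists_slope_line hX (Y₀ := Y₀) l'
    obtain ⟨q, q', hqq, h1, h2⟩ := (mΛ l).1 hl
    obtain ⟨r, r', hrr, h3, h4⟩ := (mΛ l').1 hl'
    have hkk : k ≠ k' := by
      intro hk
      apply hne
      have e1 := (b3 q (ev N l q)).1 (hk ▸ (a3 q (ev N l q)).2 rfl)
      have e2 := (b3 q' (ev N l q')).1 (hk ▸ (a3 q' (ev N l q')).2 rfl)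
      exact ev_inj (fun q hq => (bij q hq).1) hqq e1 e2
    obtain ⟨x, hxk, hxk'⟩ := exists_point (P := P) hkk
    have hxS : x ∈ S := hS.inter hkk h1 h2
      (fun h => hqq (hP.coord_inj hX hY₀ hXY (hP.inj h)).1)
      ((a3 _ _).2 rfl) ((a3 _ _).2 rfl) h3 h4
      (fun h => hrr (hP.coord_inj hX hY₀ hXY (hP.inj h)).1) ((b3 _ _).2 rfl)
      ((b3 _ _).2 rfl) hxk hxk'
    have hxl : x ∉ linf := by
      intro hxl
      have e1 : x = X := honly x hxS hxl
      have e2 : x = l.1.1 := point_unique a2 hxk a1 hxl l.1.2.1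
      exact l.1.2.2 (e2.symm.trans e1)
    obtain ⟨v, rfl⟩ := (hP.ran x).1 hxl
    obtain ⟨y, hy, w, hw, rfl⟩ := hP.exists_add hY₀ hX hXY.symm v
    have e1 := (a3 ⟨y, hy⟩ ⟨w, hw⟩).1 hxk
    have e2 := (b3 ⟨y, hy⟩ ⟨w, hw⟩).1 hxk'
    refine ⟨⟨y, hy⟩, (mF _).2 ⟨⟨w, hw⟩, hxS⟩, ?_⟩
    rw [← e1, ← e2]

end TPlane

end Pool.Agent.H58.TP
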