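import Mathlib

/-!
# Tangent subplanes of a translation plane: the algebraic core

`Q`, `W` are the affine parts of two lines through a point of the translation line, `N Y : Q → W` is
the spread set, indexed by the slopes `Y : M`.  A line not through `X` is a pair `l = (Y, b)`, the
graph of `q ↦ N Y q + b`.

`Tang N F D Λ`: `F` = the lines through `X`, `D f` = the points other than `X` on the line `f`, `Λ` = the
lines not through `X` of a subplane that meets the translation line in `X` only.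
-/

set_option autoImplicit false

open Finset

namespace Pool.Agent.H58.TP

variable {p : ℕ} {Q W M : Type} [AddCommGroup Q] [AddCommGroup W] [Module (ZMod p) Q]
  [Module (ZMod p) W]

/-- the value of the line `l` on the `X`-line `q` -/
def ev (N : M → Q →ₗ[ZMod p] W) (l : M × W) (q : Q) : W := N l.1 q + l.2

/-- the tangent subplanes -/
structure Tang (N : M → Q →ₗ[ZMod p] W) (F : Finset Q) (D : Q → Finset W) (Λ : Finset (M × W)) :
    Prop where
  three : 3 ≤ F.card
  two : ∀ f ∈ F, 2 ≤ (D f).card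
  val : ∀ l ∈ Λ, ∀ f ∈ F, ev N l f ∈ D f
  join : ∀ f ∈ F, ∀ g ∈ F, f ≠ g → ∀ a ∈ D f, ∀ b ∈ D g, ∃ l ∈ Λ, ev N l f = a ∧ ev N l g = b
  slope : ∀ l ∈ Λ, ∀ l' ∈ Λ, l ≠ l' → l.1 ≠ l'.1
  meet : ∀ l ∈ Λ, ∀ l' ∈ Λ, l ≠ l' → ∃ f ∈ F, ev N l f = ev N l' f

variable {N : M → Q →ₗ[ZMod p] W} {F : Finset Q} {D : Q → Finset W} {Λ : Finset (M × W)}

theorem ev_inj (bij : ∀ q : Q, q ≠ 0 → Function.Injective (fun Y => N Y q)) {f g : Q}
    (hfg : f ≠ g) {l l' : M × W} (h1 : ev N l f = ev N l' f) (h2 : ev N l g = ev N l' g) :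
    l = l' := by
  unfold ev at h1 h2
  have h3 : N l.1 (f - g) = N l'.1 (f - g) := by
    rw [map_sub, map_sub]
    have : N l.1 f + l.2 - (N l.1 g + l.2) = N l'.1 f + l'.2 - (N l'.1 g + l'.2) := by
      rw [h1, h2]
    simpa using this
  have h4 : l.1 = l'.1 := bij _ (sub_ne_zero.2 hfg) h3
  refine Prod.ext h4 ?_
  rw [h4] at h1
  exact add_left_cancel h1

theorem Tang.card_pencil (hT : Tang N F D Λ)
    (bij : ∀ q : Q, q ≠ 0 → Function.Injective (fun Y => N Y q)) {f g : Q} (hf : f ∈ F)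
    (hg : g ∈ F) (hfg : f ≠ g) {a : W} (ha : a ∈ D f) [DecidableEq W] :
    (Λ.filter (fun l => ev N l f = a)).card = (D g).card := by
  refine Finset.card_bij (fun l _ => ev N l g) ?_ ?_ ?_
  · intro l hl
    exact hT.val l (Finset.mem_filter.1 hl).1 g hg
  · intro l hl l' hl' h
    exact ev_inj bij hfg ((Finset.mem_filter.1 hl).2.trans (Finset.mem_filter.1 hl').2.symm) h
  · intro b hb
    obtain ⟨l, hl, h1, h2⟩ := hT.join f hf g hg hfg a ha b hb
    exact ⟨l, Finset.mem_filter.2 ⟨hl, h1⟩, h2⟩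

theorem exists_third [DecidableEq Q] (h3 : 3 ≤ F.card) (f g : Q) : ∃ h ∈ F, h ≠ f ∧ h ≠ g := by
  have h1 : ((F.erase f).erase g).card ≠ 0 := by
    have h2 := Finset.pred_card_le_card_erase (s := F) (a := f)
    have h4 := Finset.pred_card_le_card_erase (s := F.erase f) (a := g)
    omega
  obtain ⟨h, hh⟩ := Finset.card_pos.1 (Nat.pos_of_ne_zero h1)
  rw [Finset.mem_erase, Finset.mem_erase] at hh
  exact ⟨h, hh.2.2, hh.2.1, hh.1⟩

theorem exists_other [DecidableEq W] {s : Finset W} (h2 : 2 ≤ s.card) (a : W) :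
    ∃ b ∈ s, b ≠ a := by
  have h1 : (s.erase a).card ≠ 0 := by
    have h2 := Finset.pred_card_le_card_erase (s := s) (a := a)
    omega
  obtain ⟨h, hh⟩ := Finset.card_pos.1 (Nat.pos_of_ne_zero h1)
  rw [Finset.mem_erase] at hh
  exact ⟨h, hh.2, hh.1⟩

theorem Tang.card_D (hT : Tang N F D Λ)
    (bij : ∀ q : Q, q ≠ 0 → Function.Injective (fun Y => N Y q)) {f g : Q} (hf : f ∈ F)
    (hg : g ∈ F) : (D f).card = (D g).card := by
  classical
  obtain ⟨h, hh, h1, h2⟩ := exists_third hT.three f g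
  obtain ⟨c, hc⟩ := Finset.card_pos.1 (by have := hT.two h hh; omega : 0 < (D h).card)
  rw [← hT.card_pencil bij hh hf h1 hc, hT.card_pencil bij hh hg h2 hc]

/-- the cardinalities of a subplane of order `m` -/
theorem Tang.card (hT : Tang N F D Λ)
    (bij : ∀ q : Q, q ≠ 0 → Function.Injective (fun Y => N Y q)) :
    ∃ m : ℕ, 2 ≤ m ∧ (∀ f ∈ F, (D f).card = m) ∧ F.card = m + 1 ∧ Λ.card = m ^ 2 := by
  classical
  obtain ⟨h, hh⟩ := Finset.card_pos.1 (by have := hT.three; omega : 0 < F.card)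
  obtain ⟨g, hg, hgh, -⟩ := exists_third hT.three h h
  obtain ⟨c, hc⟩ := Finset.card_pos.1 (by have := hT.two h hh; omega : 0 < (D h).card)
  obtain ⟨c', hc', hcc'⟩ := exists_other (hT.two h hh) c
  obtain ⟨b, hb⟩ := Finset.card_pos.1 (by have := hT.two g hg; omega : 0 < (D g).card)
  obtain ⟨μ, hμ, h1, -⟩ := hT.join h hh g hg hgh.symm c' hc' b hb
  refine ⟨(D h).card, hT.two h hh, fun f hf => hT.card_D bij hf hh, ?_, ?_⟩
  · have h2 : ∀ l ∈ Λ.filter (fun l => ev N l h = c), ∃ f ∈ F.erase h,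
        ev N l f = ev N μ f := by
      intro l hl
      rw [Finset.mem_filter] at hl
      have hne : l ≠ μ := by
        rintro rfl
        exact hcc' (h1.symm.trans hl.2)
      obtain ⟨f, hf, h3⟩ := hT.meet l hl.1 μ hμ hne
      refine ⟨f, Finset.mem_erase.2 ⟨?_, hf⟩, h3⟩
      rintro rfl
      rw [hl.2, h1] at h3
      exact hcc' h3.symm
    choose! φ hφ using h2
    have h3 : (Λ.filter (fun l => ev N l h = c)).card = (F.erase h).card := by
      refine Finset.card_bij (fun l _ => φ l) (fun l hl => (hφ l hl).1) ?_ ?_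
      · intro l hl l' hl' h4
        have h5 := (hφ l hl).2
        have h6 := (hφ l' hl').2
        rw [← h4] at h6
        exact ev_inj bij (Finset.ne_of_mem_erase (hφ l hl).1).symm
          ((Finset.mem_filter.1 hl).2.trans (Finset.mem_filter.1 hl').2.symm) (h5.trans h6.symm)
      · intro f hf
        rw [Finset.mem_erase] at hf
        obtain ⟨l, hl, h4, h5⟩ := hT.join h hh f hf.2 hf.1.symm c hc _ (hT.val μ hμ f hf.2)
        have hl' : l ∈ Λ.filter (fun l => ev N l h = c) := Finset.mem_filter.2 ⟨hl, h4⟩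
        refine ⟨l, hl', ?_⟩
        by_contra h6
        have h7 := ev_inj bij h6 (hφ l hl').2 h5
        rw [h7, h1] at h4
        exact hcc' h4
    rw [hT.card_pencil bij hh hg hgh.symm hc, Finset.card_erase_of_mem hh] at h3
    rw [hT.card_D bij hg hh] at h3
    have := hT.three
    omega
  · have h2 : Λ.card = (D h ×ˢ D g).card := by
      refine Finset.card_bij (fun l _ => (ev N l h, ev N l g)) ?_ ?_ ?_
      · intro l hl
        exact Finset.mem_product.2 ⟨hT.val l hl h hh, hT.val l hl g hg⟩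
      · intro l _ l' _ h3
        rw [Prod.mk.injEq] at h3
        exact ev_inj bij hgh.symm h3.1 h3.2
      · rintro ⟨a, b⟩ hab
        rw [Finset.mem_product] at hab
        obtain ⟨l, hl, h4, h5⟩ := hT.join h hh g hg hgh.symm a hab.1 b hab.2
        exact ⟨l, hl, by rw [h4, h5]⟩
    rw [h2, Finset.card_product, hT.card_D bij hg hh, sq]

theorem Tang.sq_le [Fintype M] (hT : Tang N F D Λ) : Λ.card ≤ Fintype.card M := by
  refine Finset.card_le_card_of_injOn Prod.fst (fun _ _ => Finset.mem_univ _) ?_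
  intro l hl l' hl' h
  by_contra hne
  exact hT.slope l hl l' hl' hne h

/-- the sum trick -/
theorem Tang.dep (hT : Tang N F D Λ)
    (bij : ∀ q : Q, q ≠ 0 → Function.Injective (fun Y => N Y q)) {m : ℕ}
    (hm : ∀ f ∈ F, (D f).card = m) [Fact p.Prime] (hpm : ¬ p ∣ m) (c : Q → ZMod p)
    (h0 : ∑ f ∈ F, c f = 0) (h1 : ∑ f ∈ F, c f • f = 0) : ∀ g ∈ F, c g = 0 := by
  classical
  intro g hg
  have hl : ∀ l : M × W, ∑ f ∈ F, c f • ev N l f = 0 := by
    intro l
    unfold ev
    simp only [smul_add, Finset.sum_add_distrib, ← map_smul]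
    rw [← map_sum, h1, map_zero, ← Finset.sum_smul, h0, zero_smul, add_zero]
  have key : ∀ a ∈ D g, (c g * (m : ZMod p)) • a +
      ∑ f ∈ F.erase g, c f • ∑ b ∈ D f, b = 0 := by
    intro a ha
    have h2 : ∑ l ∈ Λ.filter (fun l => ev N l g = a), ∑ f ∈ F, c f • ev N l f = 0 :=
      Finset.sum_eq_zero fun l _ => hl l
    rw [Finset.sum_comm, ← Finset.add_sum_erase F _ hg] at h2
    rw [← h2]
    congr 1
    · rw [Finset.sum_congr rfl (fun l hl => by rw [(Finset.mem_filter.1 hl).2]),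
        Finset.sum_const]
      obtain ⟨h, hh, hhg, -⟩ := exists_third hT.three g g
      rw [hT.card_pencil bij hg hh hhg.symm ha, hm h hh, mul_comm, mul_smul, Nat.cast_smul_eq_nsmul]
    · refine Finset.sum_congr rfl fun f hf => ?_
      rw [Finset.mem_erase] at hf
      rw [← Finset.smul_sum]
      congr 1
      symm
      refine Finset.sum_bij (fun l _ => ev N l f) ?_ ?_ ?_ ?_
      · intro l hl
        exact hT.val l (Finset.mem_filter.1 hl).1 f hf.2
      · intro l hl l' hl' h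
        exact ev_inj bij hf.1.symm
          ((Finset.mem_filter.1 hl).2.trans (Finset.mem_filter.1 hl').2.symm) h
      · intro b hb
        obtain ⟨l, hl, h1, h2⟩ := hT.join g hg f hf.2 hf.1.symm a ha b hb
        exact ⟨l, Finset.mem_filter.2 ⟨hl, h1⟩, h2⟩
      · intro l _
        rfl
  obtain ⟨a, ha⟩ := Finset.card_pos.1 (by have := hT.two g hg; omega : 0 < (D g).card)
  obtain ⟨a', ha', hne⟩ := exists_other (hT.two g hg) a
  have h2 := key a ha
  have h3 := key a' ha'
  have h4 : (c g * (m : ZMod p)) • (a' - a) = 0 := by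
    rw [smul_sub, sub_eq_zero]
    exact add_right_cancel (h3.trans h2.symm)
  rcases smul_eq_zero.1 h4 with h5 | h5
  · rcases mul_eq_zero.1 h5 with h6 | h6
    · exact h6
    · exact absurd ((ZMod.natCast_eq_zero_iff m p).1 h6) hpm
  · exact absurd (sub_eq_zero.1 h5) hne

theorem Tang.card_le_three (hT : Tang N F D Λ)
    (bij : ∀ q : Q, q ≠ 0 → Function.Injective (fun Y => N Y q)) {m : ℕ}
    (hm : ∀ f ∈ F, (D f).card = m) [Fact p.Prime] (hpm : ¬ p ∣ m) [Finite Q]
    (hQ : Module.finrank (ZMod p) Q = 2) : F.card ≤ 3 := by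
  by_contra hcon
  obtain ⟨c, h1, h2, x, hx, hcx⟩ :=
    Module.exists_nontrivial_relation_sum_zero_of_finrank_succ_lt_card (R := ZMod p) (t := F)
      (by omega)
  exact hcx (hT.dep bij hm hpm c h2 h1 x hx)

end Pool.Agent.H58.TP
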