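import Pool.Agent.H58.TP.Main

/-!
# Desargues' theorem in a plane with homogeneous coordinates in a field
-/

set_option autoImplicit false

open Configuration Matrix

namespace Pool.Agent.H58.TP

/-- Desargues' theorem -/
def Desargues (P L : Type) [Membership P L] : Prop :=
  ∀ O A1 A2 A3 B1 B2 B3 : P,
    (¬ ∃ l : L, A1 ∈ l ∧ A2 ∈ l ∧ A3 ∈ l) →
    (¬ ∃ l : L, B1 ∈ l ∧ B2 ∈ l ∧ B3 ∈ l) →
    O ≠ A1 → O ≠ A2 → O ≠ A3 → O ≠ B1 → O ≠ B2 → O ≠ B3 →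
    A1 ≠ B1 → A2 ≠ B2 → A3 ≠ B3 →
    (∃ l : L, O ∈ l ∧ A1 ∈ l ∧ B1 ∈ l) →
    (∃ l : L, O ∈ l ∧ A2 ∈ l ∧ B2 ∈ l) →
    (∃ l : L, O ∈ l ∧ A3 ∈ l ∧ B3 ∈ l) →
    (¬ ∃ l : L, A1 ∈ l ∧ A2 ∈ l ∧ B1 ∈ l ∧ B2 ∈ l) →
    (¬ ∃ l : L, A1 ∈ l ∧ A3 ∈ l ∧ B1 ∈ l ∧ B3 ∈ l) →
    (¬ ∃ l : L, A2 ∈ l ∧ A3 ∈ l ∧ B2 ∈ l ∧ B3 ∈ l) →
    ∀ X Y Z : P, ∀ l12 m12 l13 m13 l23 m23 : L,
      A1 ∈ l12 → A2 ∈ l12 → B1 ∈ m12 → B2 ∈ m12 → X ∈ l12 → X ∈ m12 →
      A1 ∈ l13 → A3 ∈ l13 → B1 ∈ m13 → B3 ∈ m13 → Y ∈ l13 → Y ∈ m13 →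
      A2 ∈ l23 → A3 ∈ l23 → B2 ∈ m23 → B3 ∈ m23 → Z ∈ l23 → Z ∈ m23 →
      ∃ n : L, X ∈ n ∧ Y ∈ n ∧ Z ∈ n

/-- homogeneous coordinates in a field -/
def Pappian (P L : Type) [Membership P L] : Prop :=
  ∃ (K : Type) (_ : Field K) (c : P → Fin 3 → K) (d : L → Fin 3 → K), (∀ x, c x ≠ 0) ∧
    (∀ l, d l ≠ 0) ∧ ∀ x l, x ∈ l ↔ c x ⬝ᵥ d l = 0

variable {K : Type} [Field K]

theorem exists_dot_one {a : Fin 3 → K} (ha : a ≠ 0) : ∃ w : Fin 3 → K, a ⬝ᵥ w = 1 := by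
  obtain ⟨i, hi⟩ := Function.ne_iff.1 ha
  refine ⟨Pi.single i (a i)⁻¹, ?_⟩
  rw [dotProduct_single]
  exact mul_inv_cancel₀ hi

theorem prop_of_cross {a b : Fin 3 → K} (ha : a ≠ 0) (h : crossProduct a b = 0) :
    ∃ t : K, b = t • a := by
  obtain ⟨w, hw⟩ := exists_dot_one ha
  refine ⟨b ⬝ᵥ w, ?_⟩
  have h1 := cross_cross_eq_smul_sub_smul a b w
  rw [h, hw, one_smul] at h1
  simp only [map_zero, LinearMap.zero_apply] at h1
  exact (sub_eq_zero.1 h1.symm)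

theorem span_of_orth {d x y z : Fin 3 → K} (hd : d ≠ 0) (hx : x ⬝ᵥ d = 0) (hy : y ⬝ᵥ d = 0)
    (hz : z ⬝ᵥ d = 0) (hxy : crossProduct x y ≠ 0) : ∃ α β : K, z = α • x + β • y := by
  have h1 : crossProduct d (crossProduct x y) = 0 := by
    rw [cross_cross_eq_smul_sub_smul', dotProduct_comm d y, hy, zero_smul, hx, zero_smul, sub_zero]
  obtain ⟨s, hs⟩ := prop_of_cross hd h1
  have h2 : z ⬝ᵥ crossProduct x y = 0 := by
    rw [hs, dotProduct_smul, hz, smul_zero]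
  obtain ⟨t, ht⟩ := exists_dot_one hxy
  have h3 := cross_cross_eq_smul_sub_smul' (crossProduct x y) t z
  have h4 := cross_cross_eq_smul_sub_smul x y (crossProduct t z)
  rw [dotProduct_comm _ z, h2, zero_smul, zero_sub, dotProduct_comm t, ht, one_smul] at h3
  rw [h3] at h4
  refine ⟨y ⬝ᵥ crossProduct t z, -(x ⬝ᵥ crossProduct t z), ?_⟩
  have h5 : z = -(-z) := (neg_neg z).symm
  refine h5.trans ((congrArg Neg.neg h4).trans ?_)
  module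

variable {P L : Type} [Membership P L] [ProjectivePlane P L]
variable {c : P → Fin 3 → K} {d : L → Fin 3 → K}

theorem cross_ne (hc : ∀ x, c x ≠ 0) (h : ∀ x l, x ∈ l ↔ c x ⬝ᵥ d l = 0) {x y : P}
    (hxy : x ≠ y) : crossProduct (c x) (c y) ≠ 0 := by
  intro h0
  obtain ⟨t, ht⟩ := prop_of_cross (hc x) h0
  have h1 : ∀ l : L, x ∈ l → y ∈ l := by
    intro l hl
    rw [h, ht, smul_dotProduct, (h x l).1 hl, smul_zero]
  -- a line through `x` and a point off the line `xy`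
  obtain ⟨l, h2, h3⟩ := exists_line (L := L) hxy
  obtain ⟨z, hz⟩ := Nondegenerate.exists_point (P := P) l
  have hzx : z ≠ x := by
    rintro rfl
    exact hz h2
  obtain ⟨m, h4, h5⟩ := exists_line (L := L) hzx
  have h6 : m = l := line_unique hxy h5 (h1 m h5) h2 h3
  exact hz (h6 ▸ h4)

theorem cross_ne' (hd : ∀ l, d l ≠ 0) (h : ∀ x l, x ∈ l ↔ c x ⬝ᵥ d l = 0) {l m : L}
    (hlm : l ≠ m) : crossProduct (d l) (d m) ≠ 0 := by
  intro h0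
  obtain ⟨t, ht⟩ := prop_of_cross (hd l) h0
  have h1 : ∀ x : P, x ∈ l → x ∈ m := by
    intro x hx
    rw [h, ht, dotProduct_smul, (h x l).1 hx, smul_zero]
  obtain ⟨x, h2, h3⟩ := exists_point (P := P) hlm
  obtain ⟨k, hk⟩ := Nondegenerate.exists_line (L := L) x
  have hkl : k ≠ l := by
    rintro rfl
    exact hk h2
  obtain ⟨y, h4, h5⟩ := exists_point (P := P) hkl
  have h6 : y = x := point_unique hlm h5 h2 (h1 y h5) h3
  exact hk (h6 ▸ h4)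

/-- a vector on two lines is a multiple of the intersection point -/
theorem prop_of_lines (hc : ∀ x, c x ≠ 0) (hd : ∀ l, d l ≠ 0)
    (h : ∀ x l, x ∈ l ↔ c x ⬝ᵥ d l = 0) {l m : L} (hlm : l ≠ m) {x : P} (h1 : x ∈ l)
    (h2 : x ∈ m) {v : Fin 3 → K} (h3 : v ⬝ᵥ d l = 0) (h4 : v ⬝ᵥ d m = 0) :
    ∃ t : K, v = t • c x := by
  rcases ofField.crossProduct_eq_zero_of_dotProduct_eq_zero ((h x l).1 h1) h3 ((h x m).1 h2) h4
    with h5 | h5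
  · exact prop_of_cross (hc x) h5
  · exact absurd h5 (cross_ne' hd h hlm)

/-- the normalisation in the proof of Desargues' theorem -/
theorem normalise (hc : ∀ x, c x ≠ 0) (hd : ∀ l, d l ≠ 0)
    (h : ∀ x l, x ∈ l ↔ c x ⬝ᵥ d l = 0) {O A B : P} (hOA : O ≠ A) (hOB : O ≠ B)
    (hAB : A ≠ B) (hcol : ∃ l : L, O ∈ l ∧ A ∈ l ∧ B ∈ l) :
    ∃ α β : K, α ≠ 0 ∧ β ≠ 0 ∧ c O = α • c A - β • c B := by
  obtain ⟨l, h1, h2, h3⟩ := hcol
  obtain ⟨α, β, h4⟩ := span_of_orth (hd l) ((h A l).1 h2) ((h B l).1 h3) ((h O l).1 h1)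
    (cross_ne hc h hAB)
  refine ⟨α, -β, ?_, ?_, ?_⟩
  · rintro rfl
    rw [zero_smul, zero_add] at h4
    apply cross_ne hc h hOB
    rw [h4, LinearMap.map_smul₂, cross_self, smul_zero]
  · intro h5
    rw [neg_eq_zero] at h5
    rw [h5, zero_smul, add_zero] at h4
    apply cross_ne hc h hOA
    rw [h4, LinearMap.map_smul₂, cross_self, smul_zero]
  · rw [neg_smul, sub_neg_eq_add, h4]

theorem desargues_of_coord (hc : ∀ x, c x ≠ 0) (hd : ∀ l, d l ≠ 0)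
    (h : ∀ x l, x ∈ l ↔ c x ⬝ᵥ d l = 0) : Desargues P L := by
  intro O A1 A2 A3 B1 B2 B3 hA _ hOA1 hOA2 hOA3 hOB1 hOB2 hOB3 hAB1 hAB2 hAB3 c1 c2 c3 n12 n13
    n23 X Y Z l12 m12 l13 m13 l23 m23 e1 e2 e3 e4 e5 e6 f1 f2 f3 f4 f5 f6 g1 g2 g3 g4 g5 g6
  obtain ⟨α1, β1, hα1, hβ1, h1⟩ := normalise hc hd h hOA1 hOB1 hAB1 c1
  obtain ⟨α2, β2, hα2, hβ2, h2⟩ := normalise hc hd h hOA2 hOB2 hAB2 c2
  obtain ⟨α3, β3, hα3, hβ3, h3⟩ := normalise hc hd h hOA3 hOB3 hAB3 c3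
  have key : ∀ {A A' B B' X : P} {l m : L} {α α' β β' : K}, c O = α • c A - β • c B →
      c O = α' • c A' - β' • c B' → A ∈ l → A' ∈ l → B ∈ m → B' ∈ m → X ∈ l → X ∈ m → l ≠ m →
      ∃ t : K, α • c A - α' • c A' = t • c X := by
    intro A A' B B' X l m α α' β β' a1 a2 b1 b2 b3 b4 b5 b6 hlm
    refine prop_of_lines hc hd h hlm b5 b6 ?_ ?_
    · rw [sub_dotProduct, smul_dotProduct, smul_dotProduct, (h A l).1 b1, (h A' l).1 b2,
        smul_zero, smul_zero, sub_zero]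
    · have h4 : α • c A - α' • c A' = β • c B - β' • c B' := by
        have h5 : α • c A = c O + β • c B := by rw [a1]; module
        have h6 : α' • c A' = c O + β' • c B' := by rw [a2]; module
        rw [h5, h6]
        module
      rw [h4, sub_dotProduct, smul_dotProduct, smul_dotProduct, (h B m).1 b3, (h B' m).1 b4,
        smul_zero, smul_zero, sub_zero]
  obtain ⟨t12, k12⟩ := key h1 h2 e1 e2 e3 e4 e5 e6 (by
    rintro rfl
    exact n12 ⟨l12, e1, e2, e3, e4⟩)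
  obtain ⟨t13, k13⟩ := key h1 h3 f1 f2 f3 f4 f5 f6 (by
    rintro rfl
    exact n13 ⟨l13, f1, f2, f3, f4⟩)
  obtain ⟨t23, k23⟩ := key h2 h3 g1 g2 g3 g4 g5 g6 (by
    rintro rfl
    exact n23 ⟨l23, g1, g2, g3, g4⟩)
  have hA13 : A1 ≠ A3 := by
    rintro rfl
    by_cases hA12 : A1 = A2
    · obtain ⟨l, hl, -⟩ := c1
      obtain ⟨l', h4, h5⟩ := exists_line (L := L) hOA1
      exact hA ⟨l', h5, hA12 ▸ h5, h5⟩
    · obtain ⟨l', h4, h5⟩ := exists_line (L := L) hA12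
      exact hA ⟨l', h4, h5, h4⟩
  have ht13 : t13 ≠ 0 := by
    rintro rfl
    rw [zero_smul, sub_eq_zero] at k13
    apply cross_ne hc h hA13
    have h4 : c A1 = (α1⁻¹ * α3) • c A3 := by
      rw [mul_smul, ← k13, smul_smul, inv_mul_cancel₀ hα1, one_smul]
    rw [h4, LinearMap.map_smul₂, cross_self, smul_zero]
  have hsum : t12 • c X + t23 • c Z = t13 • c Y := by
    rw [← k12, ← k23, ← k13]
    module
  obtain ⟨n, hX, hZ⟩ : ∃ n : L, X ∈ n ∧ Z ∈ n := by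
    by_cases hXZ : X = Z
    · subst hXZ
      exact ⟨l12, e5, e5⟩
    · exact exists_line hXZ
  refine ⟨n, hX, ?_, hZ⟩
  rw [h]
  have h4 : (t13 • c Y) ⬝ᵥ d n = 0 := by
    rw [← hsum, add_dotProduct, smul_dotProduct, smul_dotProduct, (h X n).1 hX, (h Z n).1 hZ,
      smul_zero, smul_zero, add_zero]
  rw [smul_dotProduct, smul_eq_mul] at h4
  exact (mul_eq_zero.1 h4).resolve_left ht13

variable (P L) in
theorem Pappian.desargues (h : Pappian P L) : Desargues P L := by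
  obtain ⟨K, hK, c, d, hc, hd, h1⟩ := h
  exact desargues_of_coord hc hd h1

end Pool.Agent.H58.TP
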