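import Pool.Agent.H58.TP.Baer

/-!
# The choice of a quadrangle that does not close up in a subplane of order two, and the core theorem
-/

set_option autoImplicit false

open Finset

namespace Pool.Agent.H58.TP

variable {p : ℕ} {Q W M : Type} [AddCommGroup Q] [AddCommGroup W] [Module (ZMod p) Q]
  [Module (ZMod p) W]
variable {N : M → Q →ₗ[ZMod p] W} {F : Finset Q} {D : Q → Finset W} {Λ : Finset (M × W)}

/-- the diagonal points of the quadrangle `X`, `(0, 0)`, `(f1, u + N Y f1)`, `(f2, u + N Y f2)` are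
collinear -/
def Fano (N : M → Q →ₗ[ZMod p] W) (f1 f2 : Q) (u : W) (Y : M) : Prop :=
  ∀ Z Y' Z' : M, N Z f2 = u + N Y f2 → u + N Y' f1 = N Z f1 → N Z' f1 = u + N Y f1 →
    N Z' f2 = u + N Y' f2

theorem no_shift (bij : ∀ q : Q, q ≠ 0 → Function.Injective (fun Y => N Y q)) {f1 f2 : Q}
    (h12 : f1 ≠ f2) {u : W} (hu : u ≠ 0) {Y Z : M} (h1 : N Z f1 = u + N Y f1)
    (h2 : N Z f2 = u + N Y f2) : False := by
  have h3 : Z = Y := by
    refine bij _ (sub_ne_zero.2 h12) ?_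
    change N Z (f1 - f2) = N Y (f1 - f2)
    rw [map_sub, map_sub, h1, h2, add_sub_add_left_eq_sub]
  rw [h3] at h1
  exact hu (by simpa using h1.symm)

theorem exists_not_fano [Fintype M] (hodd : Odd (Fintype.card M))
    (bij : ∀ q : Q, q ≠ 0 → Function.Bijective (fun Y => N Y q)) {f1 f2 : Q} (hf1 : f1 ≠ 0)
    (hf2 : f2 ≠ 0) (h12 : f1 ≠ f2) {u : W} (hu : u ≠ 0) : ∃ Y, ¬ Fano N f1 f2 u Y := by
  classical
  by_contra hcon
  push Not at hcon
  have a1 : ∀ Y, ∃ Z, N Z f2 = u + N Y f2 := fun Y => (bij f2 hf2).2 _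
  choose Z hZ using a1
  have a2 : ∀ Y, ∃ Y', N Y' f1 = N (Z Y) f1 - u := fun Y => (bij f1 hf1).2 _
  choose ι hι using a2
  have a3 : ∀ Y, ∃ Z', N Z' f1 = u + N Y f1 := fun Y => (bij f1 hf1).2 _
  choose Z' hZ' using a3
  have hι' : ∀ Y, u + N (ι Y) f1 = N (Z Y) f1 := fun Y => by rw [hι, add_sub_cancel]
  have h1 : ∀ Y, Z' Y = Z (ι Y) := by
    intro Y
    refine (bij f2 hf2).1 ?_
    change N (Z' Y) f2 = N (Z (ι Y)) f2
    rw [hcon Y (Z Y) (ι Y) (Z' Y) (hZ Y) (hι' Y) (hZ' Y), hZ]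
  have hinv : Function.Involutive ι := by
    intro Y
    refine (bij f1 hf1).1 ?_
    change N (ι (ι Y)) f1 = N Y f1
    rw [hι, ← h1, hZ', add_sub_cancel_left]
  have hfix : ∀ Y, ι Y ≠ Y := by
    intro Y hY
    refine no_shift (fun q hq => (bij q hq).1) h12 hu (Z := Z Y) (Y := Y) ?_ (hZ Y)
    rw [← hι' Y, hY]
  let σ : Equiv.Perm M := hinv.toPerm
  have h2 : σ ^ 2 = 1 := by
    ext Y
    exact hinv Y
  have h3 : σ.support = Finset.univ := by
    ext Y
    simp only [Equiv.Perm.mem_support, Finset.mem_univ, iff_true]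
    exact hfix Y
  have h4 := Equiv.Perm.two_dvd_card_support h2
  rw [h3, Finset.card_univ] at h4
  exact (Nat.not_even_iff_odd.2 hodd) (even_iff_two_dvd.2 h4)

/-- a subplane of order two is a Fano plane -/
theorem Tang.fano (hT : Tang N F D Λ)
    (bij : ∀ q : Q, q ≠ 0 → Function.Injective (fun Y => N Y q))
    (hm : ∀ f ∈ F, (D f).card = 2) {f1 f2 : Q} (hf1 : f1 ≠ 0) (hf2 : f2 ≠ 0) (h12 : f1 ≠ f2)
    {u : W} (hu : u ≠ 0) {Y : M} (h0 : (0 : Q) ∈ F) (h1 : f1 ∈ F) (h2 : f2 ∈ F)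
    (hO : (0 : W) ∈ D 0) (hA : u + N Y f1 ∈ D f1) (hB : u + N Y f2 ∈ D f2) :
    Fano N f1 f2 u Y := by
  classical
  intro Z Y' Z' e1 e2 e3
  have ev0 : ∀ l : M × W, ev N l 0 = l.2 := fun l => by
    unfold ev
    rw [map_zero, zero_add]
  -- the line `OA`
  obtain ⟨l, hl, a1, a2⟩ := hT.join 0 h0 f1 h1 hf1.symm 0 hO _ hA
  have a3 : l = (Z', 0) := by
    refine ev_inj bij hf1.symm ?_ ?_
    · rw [a1, ev0]
    · rw [a2]
      unfold ev
      rw [e3, add_zero]
  rw [a3] at hl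
  have hC1 : N Z' f2 ∈ D f2 := by
    have := hT.val _ hl f2 h2
    unfold ev at this
    rwa [add_zero] at this
  -- the line `OB`
  obtain ⟨l2, hl2, b1, b2⟩ := hT.join 0 h0 f2 h2 hf2.symm 0 hO _ hB
  have b3 : l2 = (Z, 0) := by
    refine ev_inj bij hf2.symm ?_ ?_
    · rw [b1, ev0]
    · rw [b2]
      unfold ev
      rw [e1, add_zero]
  rw [b3] at hl2
  have hT1 : N Z f1 ∈ D f1 := by
    have := hT.val _ hl2 f1 h1
    unfold ev at this
    rwa [add_zero] at this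
  -- the line `AB`
  obtain ⟨l3, hl3, c1, c2⟩ := hT.join f1 h1 f2 h2 h12 _ hA _ hB
  have c3 : l3 = (Y, u) := by
    refine ev_inj bij h12 ?_ ?_
    · rw [c1]
      unfold ev
      rw [add_comm]
    · rw [c2]
      unfold ev
      rw [add_comm]
  rw [c3] at hl3
  have hU : u ∈ D 0 := by
    have := hT.val _ hl3 0 h0
    rwa [ev0] at this
  -- the line `UT`
  obtain ⟨l4, hl4, d1, d2⟩ := hT.join 0 h0 f1 h1 hf1.symm u hU _ hT1
  have d3 : l4 = (Y', u) := by
    refine ev_inj bij hf1.symm ?_ ?_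
    · rw [d1, ev0]
    · rw [d2]
      unfold ev
      rw [← e2, add_comm]
  rw [d3] at hl4
  have hC2 : u + N Y' f2 ∈ D f2 := by
    have := hT.val _ hl4 f2 h2
    unfold ev at this
    rwa [add_comm] at this
  -- `D f2` has two elements
  have n1 : N Z' f2 ≠ u + N Y f2 := by
    intro h
    exact no_shift bij h12 hu e3 h
  have n2 : u + N Y' f2 ≠ u + N Y f2 := by
    intro h
    have h5 : Y' = Y := bij f2 hf2 (add_left_cancel h)
    rw [h5] at e2
    exact no_shift bij h12 hu e2.symm e1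
  by_contra hne
  have h6 : ({N Z' f2, u + N Y' f2, u + N Y f2} : Finset W) ⊆ D f2 := by
    intro x hx
    rw [Finset.mem_insert, Finset.mem_insert, Finset.mem_singleton] at hx
    rcases hx with rfl | rfl | rfl
    · exact hC1
    · exact hC2
    · exact hB
  have h7 := Finset.card_le_card h6
  rw [hm f2 h2, Finset.card_insert_of_notMem, Finset.card_pair n2] at h7
  · omega
  · rw [Finset.mem_insert, Finset.mem_singleton]
    rintro (h | h)
    · exact hne h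
    · exact n1 h

/-- **The core theorem.** -/
theorem core [Fact p.Prime] (hp2 : p ≠ 2) [Fintype W] [Fintype M] [Finite Q]
    (hQ : Module.finrank (ZMod p) Q = 2) (hW : Fintype.card W = p ^ 2)
    (hM : Fintype.card M = p ^ 2)
    (bij : ∀ q : Q, q ≠ 0 → Function.Bijective (fun Y => N Y q))
    (hnd : ¬ ∀ Y Y' Y'' : M, ∃ Z, N Z = N Y - N Y' + N Y'') {f1 f2 : Q} (hf1 : f1 ≠ 0)
    (hf2 : f2 ≠ 0) (h12 : f1 ≠ f2) {u : W} (hu : u ≠ 0) :
    ∃ Y, ∀ (F : Finset Q) (D : Q → Finset W) (Λ : Finset (M × W)), Tang N F D Λ →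
      (0 : Q) ∈ F → f1 ∈ F → f2 ∈ F → (0 : W) ∈ D 0 → u + N Y f1 ∈ D f1 →
      u + N Y f2 ∈ D f2 → False := by
  have hpr : p.Prime := Fact.out
  have hodd : Odd (Fintype.card M) := by
    rw [hM]
    exact (hpr.odd_of_ne_two hp2).pow
  obtain ⟨Y, hY⟩ := exists_not_fano hodd bij hf1 hf2 h12 hu
  refine ⟨Y, fun F D Λ hT h0 h1 h2 hO hA hB => ?_⟩
  have bij' : ∀ q : Q, q ≠ 0 → Function.Injective (fun Y => N Y q) := fun q hq => (bij q hq).1
  obtain ⟨m, hm2, hmD, hmF, hmΛ⟩ := hT.card bij'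
  have h3 := hT.sq_le
  rw [hmΛ, hM] at h3
  have h4 : m ≤ p := by
    by_contra h
    have : p ^ 2 < m ^ 2 := Nat.pow_lt_pow_left (by omega) (by norm_num)
    omega
  by_cases hpm : p ∣ m
  · have h5 : m = p := le_antisymm h4 (Nat.le_of_dvd (by omega) hpm)
    subst h5
    exact hnd (hT.additive hp2 hQ hW hM bij' hmD)
  · have h5 := hT.card_le_three bij' hmD hpm hQ
    have h6 : m = 2 := by omega
    subst h6
    exact hY (hT.fano bij' hmD hf1 hf2 h12 hu h0 h1 h2 hO hA hB)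

end Pool.Agent.H58.TP
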