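import Pool.Agent.H58.TP.Pappus

/-!
# The field of an additive spread set of a two-dimensional space over `F_p`
-/

set_option autoImplicit false

open Configuration Matrix

namespace Pool.Agent.H58.TP

section

variable {p : ℕ} {Q W M : Type} [AddCommGroup Q] [AddCommGroup W] [Module (ZMod p) Q]
  [Module (ZMod p) W]

theorem exists_field [Fact p.Prime] [Finite W] (hW : Module.finrank (ZMod p) W = 2)
    (N : M → Q →ₗ[ZMod p] W) (bij : ∀ q : Q, q ≠ 0 → Function.Bijective (fun Y => N Y q))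
    (hadd : ∀ Y Y' Y'' : M, ∃ Z, N Z = N Y - N Y' + N Y'') {Y0 Y1 : M} (h0 : N Y0 = 0)
    (J : Q ≃ₗ[ZMod p] W) (h1 : N Y1 = J) :
    ∃ (K : Type) (_ : Field K) (κ : W → K) (m : M → K), Function.Injective κ ∧
      Function.Injective m ∧ ∀ Y q b, κ (N Y q + b) = m Y * κ (J q) + κ b := by
  classical
  have hpr : p.Prime := Fact.out
  -- the additive group `D`
  let D : AddSubgroup (Module.End (ZMod p) W) :=
    { carrier := {A | ∃ Y, N Y = A ∘ₗ J.toLinearMap}
      zero_mem' := ⟨Y0, by rw [h0]; rfl⟩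
      add_mem' := by
        rintro A B ⟨Y, hY⟩ ⟨Y', hY'⟩
        obtain ⟨Z, hZ⟩ := hadd Y Y0 Y'
        refine ⟨Z, ?_⟩
        rw [hZ, h0, hY, hY', sub_zero]
        rfl
      neg_mem' := by
        rintro A ⟨Y, hY⟩
        obtain ⟨Z, hZ⟩ := hadd Y0 Y Y0
        refine ⟨Z, ?_⟩
        rw [hZ, h0, hY, zero_sub, add_zero]
        rfl }
  have memD : ∀ A, A ∈ D ↔ ∃ Y, N Y = A ∘ₗ J.toLinearMap := fun A => Iff.rfl
  have hone : (1 : Module.End (ZMod p) W) ∈ D := ⟨Y1, by rw [h1]; rfl⟩
  have hsmul : ∀ (c : ZMod p) (A : Module.End (ZMod p) W), A ∈ D → c • A ∈ D := by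
    intro c A hA
    exact (AddSubgroup.toZModSubmodule p D).smul_mem c
      (show A ∈ AddSubgroup.toZModSubmodule p D from hA)
  have hinj : ∀ A ∈ D, ∀ B ∈ D, ∀ w : W, w ≠ 0 → A w = B w → A = B := by
    rintro A ⟨Y, hY⟩ B ⟨Y', hY'⟩ w hw hAB
    have h2 : J.symm w ≠ 0 := by
      intro h
      apply hw
      rw [← J.apply_symm_apply w, h, map_zero]
    have h3 : Y = Y' := by
      refine (bij _ h2).1 ?_
      change N Y (J.symm w) = N Y' (J.symm w)
      rw [hY, hY']
      simpa using hAB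
    ext x
    have h4 : (A ∘ₗ J.toLinearMap) (J.symm x) = (B ∘ₗ J.toLinearMap) (J.symm x) := by
      rw [← hY, ← hY', h3]
    simpa using h4
  have hsurj : ∀ w0 : W, w0 ≠ 0 → ∀ w : W, ∃ A ∈ D, A w0 = w := by
    intro w0 hw0 w
    have h2 : J.symm w0 ≠ 0 := by
      intro h
      apply hw0
      rw [← J.apply_symm_apply w0, h, map_zero]
    obtain ⟨Y, hY⟩ := (bij _ h2).2 w
    refine ⟨N Y ∘ₗ J.symm.toLinearMap, ⟨Y, ?_⟩, hY⟩
    ext x
    simp
  -- a basis
  haveI : Nontrivial W := by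
    by_contra h
    rw [not_nontrivial_iff_subsingleton] at h
    rw [Module.finrank_zero_of_subsingleton] at hW
    omega
  obtain ⟨w0, hw0⟩ := exists_ne (0 : W)
  obtain ⟨w1, hw1⟩ : ∃ w1 : W, ∀ c : ZMod p, w1 ≠ c • w0 := by
    by_contra hcon
    push Not at hcon
    have h1 : Function.Surjective (fun c : ZMod p => c • w0) := fun q => by
      obtain ⟨c, hc⟩ := hcon q
      exact ⟨c, hc.symm⟩
    have h2 := Nat.card_le_card_of_surjective _ h1
    have h3 := Module.natCard_eq_pow_finrank (K := ZMod p) (V := W)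
    rw [hW] at h3
    rw [h3, Nat.card_zmod] at h2
    have := hpr.two_le
    nlinarith
  have hsp := span_pair_top hW hw0 hw1
  obtain ⟨T, hT, hTw⟩ := hsurj w0 hw0 w1
  have hform : ∀ A ∈ D, ∃ α β : ZMod p, A = α • (1 : Module.End (ZMod p) W) + β • T := by
    intro A hA
    obtain ⟨α, β, h2⟩ := hsp (A w0)
    refine ⟨α, β, hinj A hA _ (D.add_mem (hsmul α _ hone) (hsmul β _ hT)) w0 hw0 ?_⟩
    rw [h2, LinearMap.add_apply, LinearMap.smul_apply, LinearMap.smul_apply, hTw]
    rfl
  have hTT : T * T ∈ D := by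
    obtain ⟨S, hS, hSw⟩ := hsurj w0 hw0 (T w1)
    obtain ⟨α, β, h2⟩ := hform S hS
    have h3 : T * T = S := by
      have h4 : (T * T) w0 = S w0 := by
        rw [hSw, ← hTw]
        rfl
      have h5 : (T * T) w1 = S w1 := by
        have h6 : (T * T) w1 = T (S w0) := by
          rw [hSw]
          rfl
        rw [h6, h2, ← hTw]
        simp
      ext x
      obtain ⟨a, b, rfl⟩ := hsp x
      rw [map_add, map_add, map_smul, map_smul, map_smul, map_smul, h4, h5]
    rw [h3]
    exact hS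
  have hmul : ∀ A ∈ D, ∀ B ∈ D, A * B ∈ D := by
    intro A hA B hB
    obtain ⟨α, β, rfl⟩ := hform A hA
    obtain ⟨γ, δ, rfl⟩ := hform B hB
    have h2 : (α • (1 : Module.End (ZMod p) W) + β • T) * (γ • 1 + δ • T) =
        (α * γ) • (1 : Module.End (ZMod p) W) + (α * δ + β * γ) • T + (β * δ) • (T * T) := by
      simp only [mul_add, add_mul, smul_mul_smul_comm, one_mul, mul_one, add_smul]
      abel
    rw [h2]
    exact D.add_mem (D.add_mem (hsmul _ _ hone) (hsmul _ _ hT)) (hsmul _ _ hTT)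
  have hcomm : ∀ A ∈ D, ∀ B ∈ D, A * B = B * A := by
    intro A hA B hB
    obtain ⟨α, β, rfl⟩ := hform A hA
    obtain ⟨γ, δ, rfl⟩ := hform B hB
    simp only [mul_add, add_mul, smul_mul_smul_comm, one_mul, mul_one, mul_comm]
    abel
  let R : Subring (Module.End (ZMod p) W) :=
    { D with
      mul_mem' := fun {A B} hA hB => hmul A hA B hB
      one_mem' := hone }
  have memR : ∀ A, A ∈ R ↔ A ∈ D := fun A => Iff.rfl
  letI : CommRing R := { (inferInstance : Ring R) with
    mul_comm := fun A B => Subtype.ext (hcomm A.1 A.2 B.1 B.2) }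
  haveI : Finite (Module.End (ZMod p) W) :=
    Finite.of_injective (fun A : Module.End (ZMod p) W => (A : W → W)) DFunLike.coe_injective
  haveI : Finite R := inferInstance
  haveI : Nontrivial R := by
    refine ⟨⟨0, 1, ?_⟩⟩
    intro h
    have h2 : (0 : Module.End (ZMod p) W) = 1 := congrArg Subtype.val h
    have h3 := LinearMap.congr_fun h2 w0
    exact hw0 h3.symm
  haveI : NoZeroDivisors R := by
    refine ⟨fun {A B} hAB => ?_⟩
    by_cases hB : B = 0
    · exact Or.inr hB
    · left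
      have h2 : B.1 w0 ≠ 0 := by
        intro h3
        apply hB
        exact Subtype.ext (hinj B.1 B.2 0 D.zero_mem w0 hw0 (by rw [h3]; rfl))
      refine Subtype.ext (hinj A.1 A.2 0 D.zero_mem (B.1 w0) h2 ?_)
      have h3 : (A.1 * B.1) = 0 := congrArg Subtype.val hAB
      have h4 := LinearMap.congr_fun h3 w0
      exact h4
  haveI : IsDomain R := NoZeroDivisors.to_isDomain R
  cases nonempty_fintype R
  letI hF : Field R := Fintype.fieldOfDomain R
  have hκex : ∀ w : W, ∃ A : R, A.1 w0 = w := by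
    intro w
    obtain ⟨A, hA, h2⟩ := hsurj w0 hw0 w
    exact ⟨⟨A, hA⟩, h2⟩
  choose κ hκ using hκex
  have hmex : ∀ Y : M, ∃ A : R, N Y = A.1 ∘ₗ J.toLinearMap := by
    intro Y
    have h2 : N Y ∘ₗ J.symm.toLinearMap ∈ D := ⟨Y, by ext x; simp⟩
    refine ⟨⟨_, h2⟩, ?_⟩
    ext x
    simp
  choose m hm using hmex
  refine ⟨R, hF, κ, m, ?_, ?_, ?_⟩
  · intro w w' h
    rw [← hκ w, ← hκ w', h]
  · intro Y Y' h
    have h2 : J.symm w0 ≠ 0 := by
      intro h
      apply hw0
      rw [← J.apply_symm_apply w0, h, map_zero]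
    refine (bij _ h2).1 ?_
    change N Y (J.symm w0) = N Y' (J.symm w0)
    rw [hm, hm, h]
  · intro Y q b
    refine Subtype.ext (hinj _ (κ (N Y q + b)).2 _
      (m Y * κ (J q) + κ b : R).2 w0 hw0 ?_)
    have h2 : ((m Y * κ (J q) + κ b : R) : Module.End (ZMod p) W) w0 =
        (m Y).1 ((κ (J q)).1 w0) + (κ b).1 w0 := rfl
    rw [h2, hκ, hκ, hκ, hm]
    rfl

end

variable {P L : Type} [Membership P L] [ProjectivePlane P L]
variable {p : ℕ} {V : Type} [AddCommGroup V] [Module (ZMod p) V]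
variable {linf : L} {e : V → P} {C : P → Submodule (ZMod p) V}

/-- a plane with an additive spread set is Desarguesian -/
theorem TPlane.pappian (hP : TPlane p linf e C) {X : P} (hX : X ∈ linf) {Y₀ : P}
    (hY₀ : Y₀ ∈ linf) (hXY : X ≠ Y₀) [Finite P] [Finite V] [Fact p.Prime]
    (hV : Nat.card V = p ^ 4)
    (hadd : ∀ Y Y' Y'' : Inf P linf X,
      ∃ Z, hP.sl hX Y₀ Z = hP.sl hX Y₀ Y - hP.sl hX Y₀ Y' + hP.sl hX Y₀ Y'') :
    Pappian P L := by
  have hpr : p.Prime := Fact.out
  obtain ⟨hcX, hcY⟩ := hP.card_comp hX hY₀ hXY hpr.pos hV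
  have hfr : Module.finrank (ZMod p) (C X) = 2 := by
    have h1 := Module.natCard_eq_pow_finrank (K := ZMod p) (V := C X)
    rw [hcX, Nat.card_zmod] at h1
    exact (Nat.pow_right_injective hpr.two_le h1).symm
  have bij := hP.sl_bijective hX hY₀ hXY
  obtain ⟨Z, hZ, hZX, hZY⟩ := third_point (P := P) linf X Y₀
  have h0 : hP.sl hX Y₀ ⟨Y₀, hY₀, hXY.symm⟩ = 0 := by
    ext q
    have h1 := (hP.mem_iff hX ⟨Y₀, hY₀, hXY.symm⟩ q 0).1 (by
      rw [Submodule.coe_zero, add_zero]
      exact q.2)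
    rw [← h1]
    rfl
  have hinj : Function.Injective (hP.sl hX Y₀ ⟨Z, hZ, hZX⟩) := by
    rw [← LinearMap.ker_eq_bot, LinearMap.ker_eq_bot']
    intro q hq
    have h1 := (hP.mem_iff hX ⟨Z, hZ, hZX⟩ q 0).2 hq.symm
    rw [Submodule.coe_zero, add_zero] at h1
    ext
    exact hP.inf_eq_bot hZ hY₀ hZY h1 q.2
  have hsurj : Function.Surjective (hP.sl hX Y₀ ⟨Z, hZ, hZX⟩) := by
    intro w
    obtain ⟨z, hz, y, hy, hw⟩ := hP.exists_add hZ hY₀ hZY (w : V)
    refine ⟨⟨-y, (C Y₀).neg_mem hy⟩, ((hP.mem_iff hX ⟨Z, hZ, hZX⟩ _ w).1 ?_).symm⟩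
    have : -y + (w : V) = z := by
      rw [hw]
      abel
    change -y + (w : V) ∈ C Z
    rwa [this]
  let J : C Y₀ ≃ₗ[ZMod p] C X := LinearEquiv.ofBijective (hP.sl hX Y₀ ⟨Z, hZ, hZX⟩) ⟨hinj, hsurj⟩
  obtain ⟨K, hK, κ, m, h2, h3, h4⟩ := exists_field hfr (hP.sl hX Y₀) bij hadd h0 J
    (Y1 := ⟨Z, hZ, hZX⟩) (by ext q; rfl)
  obtain ⟨c, d, h5, h6, h7⟩ := hP.exists_coord hX hY₀ hXY κ h2 m h3 J J.injective h4
  exact ⟨K, hK, c, d, h5, h6, h7⟩

/-- for `p = 2` the spread set is additive -/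
theorem add_of_two {Q W M : Type} [AddCommGroup Q] [AddCommGroup W] [Module (ZMod 2) Q]
    [Module (ZMod 2) W] [Finite W] (hW : Nat.card W = 4) [Nontrivial Q]
    (N : M → Q →ₗ[ZMod 2] W) (bij : ∀ q : Q, q ≠ 0 → Function.Bijective (fun Y => N Y q))
    (Y Y' Y'' : M) : ∃ Z, N Z = N Y - N Y' + N Y'' := by
  classical
  have h2 : ∀ w : W, w + w = 0 := fun w => by
    have h : (2 : ZMod 2) • w = 0 := by
      rw [show (2 : ZMod 2) = 0 from rfl, zero_smul]
    rwa [two_smul] at h
  have hneg : ∀ w : W, -w = w := fun w => neg_eq_of_add_eq_zero_left (h2 w)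
  obtain ⟨q0, hq0⟩ := exists_ne (0 : Q)
  by_cases h12 : Y = Y'
  · exact ⟨Y'', by rw [h12, sub_self, zero_add]⟩
  by_cases h23 : Y' = Y''
  · exact ⟨Y, by rw [h23, sub_add_cancel]⟩
  by_cases h13 : Y = Y''
  · refine ⟨Y', ?_⟩
    ext q
    rw [← h13, LinearMap.add_apply, LinearMap.sub_apply]
    have : N Y q - N Y' q + N Y q = (N Y q + N Y q) - N Y' q := by abel
    rw [this, h2, zero_sub, hneg]
  -- the fourth element
  cases nonempty_fintype W
  haveI : Finite M := Finite.of_injective _ (bij q0 hq0).1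
  cases nonempty_fintype M
  have hM : Fintype.card M = 4 := by
    rw [← hW, ← Nat.card_eq_fintype_card]
    exact Nat.card_eq_of_bijective _ (bij q0 hq0)
  have h3 : ({Y, Y', Y''} : Finset M).card = 3 := by
    rw [Finset.card_insert_of_notMem, Finset.card_pair h23]
    rw [Finset.mem_insert, Finset.mem_singleton]
    rintro (h | h)
    · exact h12 h
    · exact h13 h
  obtain ⟨Z, hZ⟩ : ∃ Z, Z ∉ ({Y, Y', Y''} : Finset M) := by
    by_contra hcon
    push Not at hcon
    have h4 : ({Y, Y', Y''} : Finset M) = Finset.univ := Finset.eq_univ_iff_forall.2 hcon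
    rw [h4, Finset.card_univ, hM] at h3
    omega
  have huniv : (Finset.univ : Finset M) = {Z, Y, Y', Y''} := by
    symm
    apply Finset.eq_univ_of_card
    rw [Finset.card_insert_of_notMem hZ, h3, hM]
  refine ⟨Z, ?_⟩
  ext q
  by_cases hq : q = 0
  · rw [hq, map_zero, map_zero]
  have h5 : ∑ T : M, N T q = ∑ w : W, w :=
    Fintype.sum_bijective _ (bij q hq) _ _ fun _ => rfl
  have h6 : ∑ w : W, w = 0 := by
    obtain ⟨w1, hw1⟩ : ∃ w1 : W, w1 ≠ 0 := by
      haveI : Nontrivial W := Finite.one_lt_card_iff_nontrivial.1 (by rw [hW]; omega)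
      exact exists_ne 0
    -- translating by `w1` does not change the sum of the four elements; direct count instead
    have hcard : Fintype.card W = 4 := by rw [← Nat.card_eq_fintype_card, hW]
    obtain ⟨w2, hw2⟩ : ∃ w2, w2 ∉ ({0, w1} : Finset W) := by
      by_contra hcon
      push Not at hcon
      have h4 : ({0, w1} : Finset W) = Finset.univ := Finset.eq_univ_iff_forall.2 hcon
      have h7 := Finset.card_pair hw1.symm
      rw [h4, Finset.card_univ, hcard] at h7
      omega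
    rw [Finset.mem_insert, Finset.mem_singleton] at hw2
    push Not at hw2
    have hu : (Finset.univ : Finset W) = {0, w1, w2, w1 + w2} := by
      symm
      apply Finset.eq_univ_of_card
      have a1 : w1 + w2 ≠ 0 := fun h => hw2.2 (by rw [← hneg w1]; exact eq_neg_of_add_eq_zero_right h)
      have a2 : w1 + w2 ≠ w1 := fun h => hw2.1 (by simpa using h)
      have a3 : w1 + w2 ≠ w2 := fun h => hw1 (by simpa using h)
      rw [Finset.card_insert_of_notMem, Finset.card_insert_of_notMem, Finset.card_pair a3.symm, hcard]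
      · rw [Finset.mem_insert, Finset.mem_singleton]
        rintro (h | h)
        · exact hw2.2 h.symm
        · exact a2 h.symm
      · rw [Finset.mem_insert, Finset.mem_insert, Finset.mem_singleton]
        rintro (h | h | h)
        · exact hw1 h.symm
        · exact hw2.1 h.symm
        · exact a1 h.symm
    have a1 : w1 + w2 ≠ 0 := fun h => hw2.2 (by rw [← hneg w1]; exact eq_neg_of_add_eq_zero_right h)
    have a2 : w1 + w2 ≠ w1 := fun h => hw2.1 (by simpa using h)
    have a3 : w1 + w2 ≠ w2 := fun h => hw1 (by simpa using h)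
    rw [hu, Finset.sum_insert, Finset.sum_insert, Finset.sum_pair a3.symm]
    · have : 0 + (w1 + (w2 + (w1 + w2))) = (w1 + w1) + (w2 + w2) := by abel
      rw [this, h2, h2, add_zero]
    · rw [Finset.mem_insert, Finset.mem_singleton]
      rintro (h | h)
      · exact hw2.2 h.symm
      · exact a2 h.symm
    · rw [Finset.mem_insert, Finset.mem_insert, Finset.mem_singleton]
      rintro (h | h | h)
      · exact hw1 h.symm
      · exact hw2.1 h.symm
      · exact a1 h.symm
  rw [h6, huniv, Finset.sum_insert hZ, Finset.sum_insert, Finset.sum_pair h23] at h5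
  · rw [LinearMap.add_apply, LinearMap.sub_apply]
    have h7 : N Z q = -(N Y q + (N Y' q + N Y'' q)) := eq_neg_of_add_eq_zero_left h5
    rw [h7, hneg, sub_eq_add_neg, hneg]
    abel
  · rw [Finset.mem_insert, Finset.mem_singleton]
    rintro (h | h)
    · exact h12 h
    · exact h13 h

/-- **The theorem for planes given by their components.** -/
theorem TPlane.main (hP : TPlane p linf e C) [Finite P] [Finite V] [Fact p.Prime]
    (hV : Nat.card V = p ^ 4) (hnd : ¬ Pappian P L) {X : P} (hX : X ∈ linf) :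
    ∃ a b c : P, Gen L X a b c := by
  have hpr : p.Prime := Fact.out
  obtain ⟨Y₀, hY₀, hne, -⟩ := third_point (P := P) linf X X
  by_cases hp2 : p = 2
  · subst hp2
    exfalso
    apply hnd
    obtain ⟨hcX, hcY⟩ := hP.card_comp hX hY₀ hne.symm hpr.pos hV
    haveI : Nontrivial (C Y₀) := Finite.one_lt_card_iff_nontrivial.1 (by rw [hcY]; norm_num)
    exact hP.pappian hX hY₀ hne.symm hV
      (add_of_two (by rw [hcX]; norm_num) _ (hP.sl_bijective hX hY₀ hne.symm))
  · refine hP.exists_gen hX hY₀ hne.symm hp2 hV fun hadd => ?_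
    exact hnd (hP.pappian hX hY₀ hne.symm hV hadd)

end Pool.Agent.H58.TP
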