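import Pool.Agent.H58.TP.Trans

/-!
# Nondesarguesian translation planes of order `p^2` and their duals are generated by a quadrangle
-/

set_option autoImplicit false

open Configuration

namespace Pool.Agent.H58.TP

variable {P L : Type} [Membership P L] [ProjectivePlane P L] {linf : L}

theorem card_off [Finite P] {n : ℕ} (hn : Nat.card {x : P // x ∈ linf} = n + 1) :
    Nat.card {x : P // x ∉ linf} = n ^ 2 := by
  classical
  haveI := finite_lines P L
  cases nonempty_fintype P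
  have h1 := ProjectivePlane.card_points P L
  have h2 := ProjectivePlane.pointCount_eq P linf
  unfold pointCount at h2
  rw [hn] at h2
  have h0 : ProjectivePlane.order P L = n := by omega
  rw [← Nat.card_eq_fintype_card, h0] at h1
  have h3 : Nat.card P = Nat.card {p : P // p ∈ linf} + Nat.card {p : P // ¬ p ∈ linf} := by
    rw [← Nat.card_sum]
    exact (Nat.card_congr (Equiv.sumCompl (fun p : P => p ∈ linf))).symm
  have h4 : Nat.card {x : P // x ∉ linf} = Nat.card {p : P // ¬ p ∈ linf} := rfl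
  omega

/-- a translation plane is given by its components -/
theorem exists_gen_of_group [Finite P] {p : ℕ} [Fact p.Prime]
    (hn : Nat.card {x : P // x ∈ linf} = p ^ 2 + 1)
    (htr : ∀ a b : P, a ∉ linf → b ∉ linf → ∃ g : TG (P := P) linf, g.1 a = b)
    (hnd : ¬ Pappian P L) {X : P} (hX : X ∈ linf) : ∃ a b c : P, Gen L X a b c := by
  classical
  obtain ⟨o, ho⟩ := Nondegenerate.exists_point (P := P) linf
  have hcard : Nat.card (TG (P := P) linf) = p ^ 4 := by
    have h1 := card_off hn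
    rw [← pow_mul] at h1
    rw [← h1]
    refine Nat.card_eq_of_bijective (fun g => (⟨g.1 o, g.2.off ho⟩ : {x : P // x ∉ linf})) ⟨?_, ?_⟩
    · intro g g' h
      exact Subtype.ext (g.2.unique g'.2 ho (congrArg Subtype.val h))
    · rintro ⟨x, hx⟩
      obtain ⟨g, hg⟩ := htr o x ho hx
      exact ⟨g, Subtype.ext hg⟩
  have hexp : ∀ g : TG (P := P) linf, g ^ p = 1 :=
    TG_exponent htr (by rw [hcard]; exact dvd_pow_self p (by norm_num))
  letI : CommGroup (TG (P := P) linf) := { (inferInstance : Group (TG (P := P) linf)) with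
    mul_comm := TG_comm htr }
  let V := Additive (TG (P := P) linf)
  letI : Module (ZMod p) V := AddCommGroup.zmodModule (n := p) (G := V) fun v => hexp v.toMul
  let e : V → P := fun v => (Additive.toMul v).1 o
  let C : P → Submodule (ZMod p) V := fun Y =>
    AddSubgroup.toZModSubmodule p (Subgroup.toAddSubgroup (CG linf Y))
  have memC : ∀ Y (v : V), v ∈ C Y ↔ Additive.toMul v ∈ CG linf Y := fun Y v => Iff.rfl
  have hoff : ∀ v : V, e v ∉ linf := fun v => (Additive.toMul v).2.off ho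
  have hP : TPlane p linf e C := by
    refine ⟨?_, ?_, ?_⟩
    · intro v w h
      have h1 : (Additive.toMul v) = Additive.toMul w :=
        Subtype.ext ((Additive.toMul v).2.unique (Additive.toMul w).2 ho h)
      exact Additive.toMul.injective h1
    · intro x
      constructor
      · intro hx
        obtain ⟨g, hg⟩ := htr o x ho hx
        exact ⟨Additive.ofMul g, hg⟩
      · rintro ⟨v, rfl⟩
        exact hoff v
    · intro Y hY l hl hYl x y hx
      rw [memC, ← mem_CG_iff hY hYl (hoff x) hx]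
      have h1 : (Additive.toMul (y - x)).1 (e x) = e y := by
        have h2 : Additive.toMul (y - x) * Additive.toMul x = Additive.toMul y := by
          rw [← toMul_add, sub_add_cancel]
        have h3 := congrArg (fun g : TG (P := P) linf => g.1 o) h2
        exact h3
      rw [h1]
  haveI : Finite V := inferInstanceAs (Finite (TG (P := P) linf))
  exact hP.main hcard hnd hX

/-- the collineations that fix exactly the points of `linf` are transitive on the other points -/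
def TransLine (P : Type) {L : Type} [Membership P L] (linf : L) : Prop :=
  ∀ a b : P, a ∉ linf → b ∉ linf → a ≠ b → ∃ (σ : P ≃ P) (τ : L ≃ L),
    (∀ (x : P) (l : L), σ x ∈ τ l ↔ x ∈ l) ∧ (∀ x : P, σ x = x ↔ x ∈ linf) ∧ σ a = b

/-- the theorem for translation planes, for every point of the translation line -/
theorem translation_main [Finite P] (p : ℕ) (hp : p.Prime)
    (hn : ProjectivePlane.order P L = p ^ 2) (linf : L) (htr : TransLine P linf)
    (hnd : ¬ Pappian P L) {X : P} (hX : X ∈ linf) : ∃ a b c : P, Gen L X a b c := by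
  haveI : Fact p.Prime := ⟨hp⟩
  haveI := finite_lines P L
  have hn' : Nat.card {x : P // x ∈ linf} = p ^ 2 + 1 := by
    have h2 := ProjectivePlane.pointCount_eq P linf
    unfold pointCount at h2
    rw [h2, hn]
  refine exists_gen_of_group hn' ?_ hnd hX
  intro a b ha hb
  by_cases hab : a = b
  · exact ⟨1, hab⟩
  · obtain ⟨σ, τ, h1, h2, h3⟩ := htr a b ha hb hab
    exact ⟨⟨σ, ⟨τ, h1⟩, Or.inr h2⟩, h3⟩

/-- a plane whose dual is generated by a quadrangle is generated by a quadrangle -/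
theorem gen_of_dual {a b c d : L} (h1 : ¬ ∃ x : P, x ∈ a ∧ x ∈ b ∧ x ∈ c)
    (h2 : ¬ ∃ x : P, x ∈ a ∧ x ∈ b ∧ x ∈ d) (h3 : ¬ ∃ x : P, x ∈ a ∧ x ∈ c ∧ x ∈ d)
    (h4 : ¬ ∃ x : P, x ∈ b ∧ x ∈ c ∧ x ∈ d)
    (h : ∀ S : Set L, a ∈ S → b ∈ S → c ∈ S → d ∈ S →
      (∀ x y : P, x ≠ y → (∃ l m : L, l ∈ S ∧ m ∈ S ∧ l ≠ m ∧ x ∈ l ∧ x ∈ m) →
        (∃ l m : L, l ∈ S ∧ m ∈ S ∧ l ≠ m ∧ y ∈ l ∧ y ∈ m) → ∀ k : L, x ∈ k → y ∈ k → k ∈ S) →
      ∀ k : L, k ∈ S) : ∃ A B C D : P, Gen L A B C D := by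
  have meet : ∀ l m : L, ∃ x : P, x ∈ l ∧ x ∈ m := by
    intro l m
    by_cases hlm : l = m
    · subst hlm
      obtain ⟨z, hz⟩ := Nondegenerate.exists_point (P := P) l
      obtain ⟨k, hk⟩ := Nondegenerate.exists_line (L := L) z
      by_cases hlk : l = k
      · obtain ⟨c1, c2, c3, l1, l2, l3, r1, r2, r3, r4, r5, r6, r7, r8⟩ :=
          ProjectivePlane.exists_config (P := P) (L := L)
        by_cases hl1 : l = l1
        · have : l ≠ l2 := by
            rintro rfl
            rw [← hl1] at r3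
            exact r3 r4
          obtain ⟨x, hx, -⟩ := exists_point (P := P) this
          exact ⟨x, hx, hx⟩
        · obtain ⟨x, hx, -⟩ := exists_point (P := P) hl1
          exact ⟨x, hx, hx⟩
      · obtain ⟨x, hx, -⟩ := exists_point (P := P) hlk
        exact ⟨x, hx, hx⟩
    · exact exists_point hlm
  have hab : a ≠ b := by
    rintro rfl
    obtain ⟨x, hx, hx'⟩ := meet a c
    exact h1 ⟨x, hx, hx, hx'⟩
  have hbc : b ≠ c := by
    rintro rfl
    obtain ⟨x, hx, hx'⟩ := meet a b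
    exact h1 ⟨x, hx, hx', hx'⟩
  have hcd : c ≠ d := by
    rintro rfl
    obtain ⟨x, hx, hx'⟩ := meet a c
    exact h3 ⟨x, hx, hx', hx'⟩
  have hda : d ≠ a := by
    rintro rfl
    obtain ⟨x, hx, hx'⟩ := meet d b
    exact h2 ⟨x, hx, hx', hx⟩
  obtain ⟨A, hAa, hAb⟩ := exists_point (P := P) hab
  obtain ⟨B, hBb, hBc⟩ := exists_point (P := P) hbc
  obtain ⟨C, hCc, hCd⟩ := exists_point (P := P) hcd
  obtain ⟨D, hDd, hDa⟩ := exists_point (P := P) hda
  have hAB : A ≠ B := by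
    rintro rfl
    exact h1 ⟨A, hAa, hAb, hBc⟩
  have hAD : A ≠ D := by
    rintro rfl
    exact h2 ⟨A, hAa, hAb, hDd⟩
  have hBC : B ≠ C := by
    rintro rfl
    exact h4 ⟨B, hBb, hBc, hCd⟩
  have hCD : C ≠ D := by
    rintro rfl
    exact h3 ⟨C, hDa, hCc, hCd⟩
  refine ⟨A, B, C, D, ?_, ?_, ?_, ?_, ?_⟩
  · rintro ⟨l, e1, e2, e3⟩
    rw [line_unique hAB e1 e2 hAb hBb] at e3
    exact h4 ⟨C, e3, hCc, hCd⟩
  · rintro ⟨l, e1, e2, e3⟩
    rw [line_unique hAB e1 e2 hAb hBb] at e3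
    exact h2 ⟨D, hDa, e3, hDd⟩
  · rintro ⟨l, e1, e2, e3⟩
    rw [line_unique hAD e1 e3 hAa hDa] at e2
    exact h3 ⟨C, e2, hCc, hCd⟩
  · rintro ⟨l, e1, e2, e3⟩
    rw [line_unique hBC e1 e2 hBc hCc] at e3
    exact h3 ⟨D, hDa, e3, hDd⟩
  · intro S hA hB hC hD hS
    let T : Set L := {l | ∃ p q : P, p ∈ S ∧ q ∈ S ∧ p ≠ q ∧ p ∈ l ∧ q ∈ l}
    have hpt : ∀ x : P, (∃ l m : L, l ∈ T ∧ m ∈ T ∧ l ≠ m ∧ x ∈ l ∧ x ∈ m) → x ∈ S := by
      rintro x ⟨l, m, hl, hm, hlm, hxl, hxm⟩
      exact hS l m hlm hl hm x hxl hxm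
    have hT : ∀ k : L, k ∈ T := by
      refine h T ⟨A, D, hA, hD, hAD, hAa, hDa⟩ ⟨A, B, hA, hB, hAB, hAb, hBb⟩
        ⟨B, C, hB, hC, hBC, hBc, hCc⟩ ⟨C, D, hC, hD, hCD, hCd, hDd⟩ ?_
      intro x y hxy hx hy k hxk hyk
      exact ⟨x, y, hpt x hx, hpt y hy, hxy, hxk, hyk⟩
    intro x
    -- two lines through `x`
    obtain ⟨m, hm⟩ := Nondegenerate.exists_line (L := L) x
    obtain ⟨y, z, hy, hz, hyz⟩ : ∃ y z : P, y ∈ m ∧ z ∈ m ∧ y ≠ z := by
      obtain ⟨y, z, -, -, h5, h6, h7⟩ := hT m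
      exact ⟨y, z, h6, h7, h5⟩
    have hxy : x ≠ y := by
      rintro rfl
      exact hm hy
    have hxz : x ≠ z := by
      rintro rfl
      exact hm hz
    obtain ⟨k1, e1, e2⟩ := exists_line (L := L) hxy
    obtain ⟨k2, e3, e4⟩ := exists_line (L := L) hxz
    refine hpt x ⟨k1, k2, hT k1, hT k2, ?_, e1, e3⟩
    rintro rfl
    exact hm ((line_unique hyz e2 e4 hy hz) ▸ e1)

theorem Pappian.of_dual (h : Pappian (Dual L) (Dual P)) : Pappian P L := by
  obtain ⟨K, hK, c, d, hc, hd, h1⟩ := h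
  refine ⟨K, hK, d, c, hd, hc, fun x l => ?_⟩
  rw [dotProduct_comm]
  exact h1 l x

/-- the theorem for dual translation planes -/
theorem dual_main [Finite P] (p : ℕ) (hp : p.Prime)
    (hn : ProjectivePlane.order P L = p ^ 2) (c : P)
    (htr : ∀ a b : L, c ∉ a → c ∉ b → a ≠ b → ∃ (σ : P ≃ P) (τ : L ≃ L),
      (∀ (x : P) (l : L), σ x ∈ τ l ↔ x ∈ l) ∧ (∀ l : L, τ l = l ↔ c ∈ l) ∧ τ a = b)
    (hnd : ¬ Pappian P L) : ∃ A B C D : P, Gen L A B C D := by
  haveI := finite_lines P L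
  haveI : Finite (Dual L) := inferInstanceAs (Finite L)
  have hn' : ProjectivePlane.order (Dual L) (Dual P) = p ^ 2 := by
    rw [ProjectivePlane.Dual.order, hn]
  let cd : Dual P := c
  have htr' : TransLine (Dual L) cd := by
    intro a b ha hb hab
    obtain ⟨σ, τ, h1, h2, h3⟩ := htr a b ha hb hab
    exact ⟨τ, σ, fun x l => h1 l x, h2, h3⟩
  obtain ⟨X, hX⟩ : ∃ X : L, c ∈ X := by
    obtain ⟨l, hl⟩ := Nondegenerate.exists_line (L := L) c
    obtain ⟨y, hy, -, -⟩ := third_point (P := P) l c c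
    have hyc : y ≠ c := by
      rintro rfl
      exact hl hy
    obtain ⟨k, -, hk⟩ := exists_line (L := L) hyc
    exact ⟨k, hk⟩
  have hX' : (show Dual L from X) ∈ cd := hX
  obtain ⟨a, b, d, h1, h2, h3, h4, h5⟩ := translation_main p hp hn' cd htr'
    (fun h => hnd h.of_dual) hX'
  exact gen_of_dual (P := P) (L := L) (a := X) (b := a) (c := b) (d := d) h1 h2 h3 h4 h5

end Pool.Agent.H58.TP
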