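import Pool.Agent.H58.TP.Fano

/-!
# Translation planes: components, closed sets, coordinates

`TPlane p linf e C`: the points off `linf` are `e v`, `v : V`, and the lines other than `linf` through
the point `Y` of `linf` are the cosets of the component `C Y`.
-/

set_option autoImplicit false

open Configuration

namespace Pool.Agent.H58.TP

variable {P L : Type} [Membership P L] [ProjectivePlane P L]

/-- closed under intersecting spanned lines -/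
def Closed (L : Type) {P : Type} [Membership P L] (S : Set P) : Prop :=
  ∀ l m : L, l ≠ m →
    (∃ p q : P, p ∈ S ∧ q ∈ S ∧ p ≠ q ∧ p ∈ l ∧ q ∈ l) →
    (∃ p q : P, p ∈ S ∧ q ∈ S ∧ p ≠ q ∧ p ∈ m ∧ q ∈ m) →
    ∀ x : P, x ∈ l → x ∈ m → x ∈ S

/-- `a, b, c, d` is a quadrangle that generates the plane -/
def Gen (L : Type) {P : Type} [Membership P L] (a b c d : P) : Prop :=
  (¬ ∃ l : L, a ∈ l ∧ b ∈ l ∧ c ∈ l) ∧
  (¬ ∃ l : L, a ∈ l ∧ b ∈ l ∧ d ∈ l) ∧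
  (¬ ∃ l : L, a ∈ l ∧ c ∈ l ∧ d ∈ l) ∧
  (¬ ∃ l : L, b ∈ l ∧ c ∈ l ∧ d ∈ l) ∧
  ∀ S : Set P, a ∈ S → b ∈ S → c ∈ S → d ∈ S → Closed L S → ∀ x : P, x ∈ S

theorem line_unique {l m : L} {p q : P} (h : p ≠ q) (h1 : p ∈ l) (h2 : q ∈ l) (h3 : p ∈ m)
    (h4 : q ∈ m) : l = m :=
  (Nondegenerate.eq_or_eq h1 h2 h3 h4).resolve_left h

theorem point_unique {l m : L} {p q : P} (h : l ≠ m) (h1 : p ∈ l) (h2 : q ∈ l) (h3 : p ∈ m)
    (h4 : q ∈ m) : p = q :=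
  (Nondegenerate.eq_or_eq h1 h2 h3 h4).resolve_right h

theorem exists_line {p q : P} (h : p ≠ q) : ∃ l : L, p ∈ l ∧ q ∈ l :=
  ⟨HasLines.mkLine h, HasLines.mkLine_ax h⟩

theorem exists_point {l m : L} (h : l ≠ m) : ∃ p : P, p ∈ l ∧ p ∈ m :=
  ⟨HasPoints.mkPoint h, HasPoints.mkPoint_ax h⟩

theorem Closed.inter {S : Set P} (hS : Closed L S) {l m : L} (hlm : l ≠ m) {a b c d x : P}
    (ha : a ∈ S) (hb : b ∈ S) (hab : a ≠ b) (hal : a ∈ l) (hbl : b ∈ l) (hc : c ∈ S)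
    (hd : d ∈ S) (hcd : c ≠ d) (hcm : c ∈ m) (hdm : d ∈ m) (hxl : x ∈ l) (hxm : x ∈ m) : x ∈ S :=
  hS l m hlm ⟨a, b, ha, hb, hab, hal, hbl⟩ ⟨c, d, hc, hd, hcd, hcm, hdm⟩ x hxl hxm

variable {p : ℕ} {V : Type} [AddCommGroup V] [Module (ZMod p) V]

/-- translation planes, by their components -/
structure TPlane (p : ℕ) {P L V : Type} [Membership P L] [ProjectivePlane P L] [AddCommGroup V]
    [Module (ZMod p) V] (linf : L) (e : V → P) (C : P → Submodule (ZMod p) V) : Prop where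
  inj : Function.Injective e
  ran : ∀ x : P, x ∉ linf ↔ x ∈ Set.range e
  mem : ∀ Y ∈ linf, ∀ l : L, l ≠ linf → Y ∈ l → ∀ x y : V, e x ∈ l → (e y ∈ l ↔ y - x ∈ C Y)

variable {linf : L} {e : V → P} {C : P → Submodule (ZMod p) V}

namespace TPlane

variable (hP : TPlane p linf e C)

include hP

theorem notMem (v : V) : e v ∉ linf := (hP.ran _).2 ⟨v, rfl⟩

theorem ne_linf {v : V} {l : L} (h : e v ∈ l) : l ≠ linf := by
  rintro rfl
  exact hP.notMem v h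

theorem ne_inf {Y : P} (hY : Y ∈ linf) (v : V) : e v ≠ Y := by
  rintro rfl
  exact hP.notMem v hY

/-- the line through `e v` and the point `Y` at infinity -/
theorem exists_line (v : V) {Y : P} (hY : Y ∈ linf) :
    ∃ l : L, e v ∈ l ∧ Y ∈ l ∧ l ≠ linf ∧ ∀ x, e x ∈ l ↔ x - v ∈ C Y := by
  obtain ⟨l, h1, h2⟩ := TP.exists_line (L := L) (hP.ne_inf hY v)
  exact ⟨l, h1, h2, hP.ne_linf h1, fun x => hP.mem Y hY l (hP.ne_linf h1) h2 v x h1⟩

/-- lines through different points at infinity are different -/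
theorem line_ne {Y Y' : P} (hY : Y ∈ linf) (hY' : Y' ∈ linf) (h : Y ≠ Y') {l l' : L}
    (hl : l ≠ linf) (h1 : Y ∈ l) (h2 : Y' ∈ l') : l ≠ l' := by
  rintro rfl
  exact hl (line_unique h h1 h2 hY hY')

theorem inf_eq_bot {Y Y' : P} (hY : Y ∈ linf) (hY' : Y' ∈ linf) (h : Y ≠ Y') {v : V}
    (h1 : v ∈ C Y) (h2 : v ∈ C Y') : v = 0 := by
  obtain ⟨l, a1, a2, a3, a4⟩ := hP.exists_line 0 hY
  obtain ⟨l', b1, b2, b3, b4⟩ := hP.exists_line 0 hY'
  refine hP.inj (point_unique (hP.line_ne hY hY' h a3 a2 b2) ((a4 v).2 ?_) a1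
    ((b4 v).2 ?_) b1)
  · rwa [sub_zero]
  · rwa [sub_zero]

theorem exists_add {Y Y' : P} (hY : Y ∈ linf) (hY' : Y' ∈ linf) (h : Y ≠ Y') (v : V) :
    ∃ y ∈ C Y, ∃ y' ∈ C Y', v = y + y' := by
  obtain ⟨l, a1, a2, a3, a4⟩ := hP.exists_line v hY
  obtain ⟨l', b1, b2, b3, b4⟩ := hP.exists_line 0 hY'
  obtain ⟨x, h1, h2⟩ := exists_point (P := P) (hP.line_ne hY hY' h a3 a2 b2)
  have h3 : x ∉ linf := by
    intro h3
    have e1 : x = Y := point_unique a3 h1 a2 h3 hY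
    have e2 : x = Y' := point_unique b3 h2 b2 h3 hY'
    exact h (e1.symm.trans e2)
  obtain ⟨z, rfl⟩ := (hP.ran x).1 h3
  refine ⟨v - z, ?_, z, ?_, by abel⟩
  · rw [← neg_sub]
    exact (C Y).neg_mem ((a4 z).1 h1)
  · have := (b4 z).1 h2
    rwa [sub_zero] at this

theorem isCompl {Y Y' : P} (hY : Y ∈ linf) (hY' : Y' ∈ linf) (h : Y ≠ Y') :
    IsCompl (C Y) (C Y') := by
  refine ⟨Submodule.disjoint_def.2 fun x h1 h2 => hP.inf_eq_bot hY hY' h h1 h2, ?_⟩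
  rw [codisjoint_iff, eq_top_iff]
  intro v _
  obtain ⟨y, hy, y', hy', rfl⟩ := hP.exists_add hY hY' h v
  exact Submodule.add_mem_sup hy hy'

theorem exists_dir (v : V) (hv : v ≠ 0) : ∃ Y ∈ linf, v ∈ C Y := by
  have h1 : e v ≠ e 0 := fun h => hv (hP.inj h)
  obtain ⟨l, h2, h3⟩ := TP.exists_line (L := L) h1
  obtain ⟨Y, h4, h5⟩ := exists_point (P := P) (hP.ne_linf h2)
  refine ⟨Y, h5, ?_⟩
  have := (hP.mem Y h5 l (hP.ne_linf h2) h4 0 v h3).1 h2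
  rwa [sub_zero] at this

/-- directions of differences of a closed set -/
theorem dir_mem {S : Set P} (hS : Closed L S) {X X' : P} (hX : X ∈ linf) (hX' : X' ∈ linf)
    (hne : X ≠ X') (hXS : X ∈ S) (hXS' : X' ∈ S) (h0 : e 0 ∈ S) {v : V} (hv : v ≠ 0)
    (hvS : e v ∈ S) {Y : P} (hY : Y ∈ linf) (hvY : v ∈ C Y) : Y ∈ S := by
  obtain ⟨l, a1, a2, a3, a4⟩ := hP.exists_line 0 hY
  refine hS.inter a3 h0 hvS (fun h => hv (hP.inj h).symm) a1 ((a4 v).2 ?_) hXS hXS' hne hX hX' a2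
    hY
  rwa [sub_zero]

/-- the intersection point of two spanned lines of different directions -/
theorem cross_mem {S : Set P} (hS : Closed L S) {Y Y' : P} (hY : Y ∈ linf) (hY' : Y' ∈ linf)
    (h : Y ≠ Y') (hYS : Y ∈ S) (hYS' : Y' ∈ S) {a b x : V} (ha : e a ∈ S) (hb : e b ∈ S)
    (hxa : x - a ∈ C Y) (hxb : x - b ∈ C Y') : e x ∈ S := by
  obtain ⟨l, a1, a2, a3, a4⟩ := hP.exists_line a hY
  obtain ⟨l', b1, b2, b3, b4⟩ := hP.exists_line b hY'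
  exact hS.inter (hP.line_ne hY hY' h a3 a2 b2) ha hYS (hP.ne_inf hY a) a1 a2 hb hYS'
    (hP.ne_inf hY' b) b1 b2 ((a4 x).2 hxa) ((b4 x).2 hxb)

section affine

variable {S : Set P} (hS : Closed L S) {X X' : P} (hX : X ∈ linf) (hX' : X' ∈ linf)
  (hne : X ≠ X') (hXS : X ∈ S) (hXS' : X' ∈ S) (h0 : e 0 ∈ S) {a b : V} (ha : e a ∈ S)
  (hb : e b ∈ S) (hab : ∀ Y ∈ linf, ¬ (a ∈ C Y ∧ b ∈ C Y))

include hS hX hX' hne hXS hXS' h0

theorem add_mem_aux {v w : V} (hv : e v ∈ S) (hw : e w ∈ S) {Y : P} (hY : Y ∈ linf)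
    (hvY : v ∈ C Y) (hwY : w ∉ C Y) : e (v + w) ∈ S := by
  by_cases hv0 : v = 0
  · rwa [hv0, zero_add]
  have hw0 : w ≠ 0 := by
    rintro rfl
    exact hwY (C Y).zero_mem
  obtain ⟨Z, hZ, hwZ⟩ := hP.exists_dir w hw0
  have hZY : Z ≠ Y := by
    rintro rfl
    exact hwY hwZ
  refine hP.cross_mem hS hZ hY hZY
    (hP.dir_mem hS hX hX' hne hXS hXS' h0 hw0 hw hZ hwZ)
    (hP.dir_mem hS hX hX' hne hXS hXS' h0 hv0 hv hY hvY) hv hw ?_ ?_
  · rwa [add_sub_cancel_left]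
  · rwa [add_sub_cancel_right]

include ha hb hab

theorem add_mem {v w : V} (hv : e v ∈ S) (hw : e w ∈ S) : e (v + w) ∈ S := by
  by_cases hv0 : v = 0
  · rwa [hv0, zero_add]
  obtain ⟨Y, hY, hvY⟩ := hP.exists_dir v hv0
  by_cases hwY : w ∈ C Y
  · obtain ⟨c, hc, hcY⟩ : ∃ c, e c ∈ S ∧ c ∉ C Y := by
      by_cases h1 : a ∈ C Y
      · exact ⟨b, hb, fun h2 => hab Y hY ⟨h1, h2⟩⟩
      · exact ⟨a, ha, h1⟩
    have hc0 : c ≠ 0 := by
      rintro rfl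
      exact hcY (C Y).zero_mem
    have h1 := hP.add_mem_aux hS hX hX' hne hXS hXS' h0 hv hc hY hvY hcY
    have h2 : v + c ∉ C Y := fun h => hcY (((C Y).add_mem_iff_right hvY).1 h)
    have h3 := hP.add_mem_aux hS hX hX' hne hXS hXS' h0 hw h1 hY hwY h2
    by_cases hvw : v + w = 0
    · rwa [hvw]
    obtain ⟨Z, hZ, hcZ⟩ := hP.exists_dir c hc0
    have hZY : Z ≠ Y := by
      rintro rfl
      exact hcY hcZ
    refine hP.cross_mem hS hZ hY hZY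
      (hP.dir_mem hS hX hX' hne hXS hXS' h0 hc0 hc hZ hcZ)
      (hP.dir_mem hS hX hX' hne hXS hXS' h0 hv0 hv hY hvY) h3 h0 ?_ ?_
    · have : v + w - (w + (v + c)) = -c := by abel
      rw [this]
      exact (C Z).neg_mem hcZ
    · rw [sub_zero]
      exact (C Y).add_mem hvY hwY
  · exact hP.add_mem_aux hS hX hX' hne hXS hXS' h0 hv hw hY hvY hwY

theorem smul_mem {v : V} (hv : e v ∈ S) (c : ZMod p) [NeZero p] : e (c • v) ∈ S := by
  have h1 : ∀ n : ℕ, e (n • v) ∈ S := by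
    intro n
    induction n with
    | zero => rwa [zero_smul]
    | succ n ih =>
      rw [succ_nsmul]
      exact hP.add_mem hS hX hX' hne hXS hXS' h0 ha hb hab ih hv
  have h2 : c • v = c.val • v := by
    rw [← Nat.cast_smul_eq_nsmul (ZMod p), ZMod.natCast_val, ZMod.cast_id]
  rw [h2]
  exact h1 _

theorem full [NeZero p] (hsp : ∀ v : V, ∃ α β : ZMod p, v - (α • a + β • b) ∈ C X) {u : V}
    (huX : u ∈ C X) (hu0 : u ≠ 0) (huS : e u ∈ S) (haX : a ∉ C X) : ∀ x : P, x ∈ S := by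
  have hadd : ∀ {v w : V}, e v ∈ S → e w ∈ S → e (v + w) ∈ S := fun hv hw =>
    hP.add_mem hS hX hX' hne hXS hXS' h0 ha hb hab hv hw
  have h1 : ∀ Y ∈ linf, Y ≠ X → Y ∈ S → ∀ v ∈ C Y, e v ∈ S := by
    intro Y hY hYX hYS v hv
    obtain ⟨α, β, h2⟩ := hsp v
    refine hP.cross_mem hS hX hY hYX.symm hXS hYS (a := α • a + β • b) (b := 0)
      (hadd (hP.smul_mem hS hX hX' hne hXS hXS' h0 ha hb hab ha α)
        (hP.smul_mem hS hX hX' hne hXS hXS' h0 ha hb hab hb β)) h0 h2 ?_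
    rwa [sub_zero]
  obtain ⟨x, hx, c, hc, hxc⟩ := hP.exists_add hX hX' hne a
  have hc0 : c ≠ 0 := by
    rintro rfl
    rw [add_zero] at hxc
    exact haX (hxc ▸ hx)
  have hcu0 : c + u ≠ 0 := by
    intro h
    have : c ∈ C X := by
      rw [eq_neg_of_add_eq_zero_left h]
      exact (C X).neg_mem huX
    exact hc0 (hP.inf_eq_bot hX hX' hne this hc)
  obtain ⟨Y, hY, hcuY⟩ := hP.exists_dir (c + u) hcu0
  have hYX : Y ≠ X := by
    rintro rfl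
    exact hc0 (hP.inf_eq_bot hX hX' hne (((C Y).add_mem_iff_left huX).1 hcuY) hc)
  have hYX' : Y ≠ X' := by
    rintro rfl
    exact hu0 (hP.inf_eq_bot hX hX' hne huX (((C Y).add_mem_iff_right hc).1 hcuY))
  have hcS : e c ∈ S := h1 X' hX' hne.symm hXS' c hc
  have hYS : Y ∈ S := hP.dir_mem hS hX hX' hne hXS hXS' h0 hcu0 (hadd hcS huS) hY hcuY
  have haff : ∀ v, e v ∈ S := by
    intro v
    obtain ⟨y, hy, z, hz, rfl⟩ := hP.exists_add hY hX' hYX' v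
    exact hadd (h1 Y hY hYX hYS y hy) (h1 X' hX' hne.symm hXS' z hz)
  intro Z
  by_cases hZ : Z ∈ linf
  · -- a nonzero vector of `C Z`
    obtain ⟨T, hT, hTZ, haT⟩ : ∃ T ∈ linf, Z ≠ T ∧ a ∉ C T := by
      have ha0 : a ≠ 0 := by
        rintro rfl
        exact haX (C X).zero_mem
      by_cases hZX : Z = X
      · by_cases haX' : a ∈ C X'
        · refine ⟨Y, hY, ?_, fun h => ha0 (hP.inf_eq_bot hY hX' hYX' h haX')⟩
          rw [hZX]
          exact hYX.symm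
        · refine ⟨X', hX', ?_, haX'⟩
          rw [hZX]
          exact hne
      · exact ⟨X, hX, hZX, haX⟩
    obtain ⟨z, hz, t, ht, hzt⟩ := hP.exists_add hZ hT hTZ a
    have hz0 : z ≠ 0 := by
      rintro rfl
      rw [zero_add] at hzt
      exact haT (hzt ▸ ht)
    exact hP.dir_mem hS hX hX' hne hXS hXS' h0 hz0 (haff z) hZ hz
  · obtain ⟨v, rfl⟩ := (hP.ran Z).1 hZ
    exact haff v

end affine

end TPlane

end Pool.Agent.H58.TP
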