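import Pool.Agent.H58.TP.Coord

/-!
# A generating quadrangle through every point at infinity
-/

set_option autoImplicit false

open Configuration

namespace Pool.Agent.H58.TP

variable {P L : Type} [Membership P L] [ProjectivePlane P L]
variable {p : ℕ} {V : Type} [AddCommGroup V] [Module (ZMod p) V]
variable {linf : L} {e : V → P} {C : P → Submodule (ZMod p) V}

variable (P L) in
theorem finite_lines [Finite P] : Finite L := by
  apply Finite.of_injective (fun l : L => {p : P | p ∈ l})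
  intro l m hlm
  by_contra h
  obtain ⟨X, h1, h2⟩ := exists_point (P := P) h
  obtain ⟨m', hm'⟩ := Nondegenerate.exists_line (L := L) X
  have h3 : l ≠ m' := by
    rintro rfl
    exact hm' h1
  obtain ⟨Y, h4, h5⟩ := exists_point (P := P) h3
  have h6 : Y ∈ m := by
    have : Y ∈ {p : P | p ∈ l} := h4
    rwa [show {p : P | p ∈ l} = {p : P | p ∈ m} from hlm] at this
  have h7 : X = Y := point_unique h h1 h4 h2 h6
  exact hm' (h7 ▸ h5)

theorem third_point [Finite P] (l : L) (X Y : P) : ∃ Z : P, Z ∈ l ∧ Z ≠ X ∧ Z ≠ Y := by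
  classical
  haveI := finite_lines P L
  have h1 := ProjectivePlane.two_lt_pointCount (P := P) l
  unfold pointCount at h1
  cases nonempty_fintype {p : P // p ∈ l}
  rw [Nat.card_eq_fintype_card, ← Finset.card_univ] at h1
  let s : Finset P := Finset.univ.image (fun x : {p : P // p ∈ l} => x.1)
  have h2 : s.card = (Finset.univ : Finset {p : P // p ∈ l}).card :=
    Finset.card_image_of_injective _ Subtype.val_injective
  have h3 : ((s.erase X).erase Y).card ≠ 0 := by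
    have h4 := Finset.pred_card_le_card_erase (s := s) (a := X)
    have h5 := Finset.pred_card_le_card_erase (s := s.erase X) (a := Y)
    omega
  obtain ⟨Z, hZ⟩ := Finset.card_pos.1 (Nat.pos_of_ne_zero h3)
  rw [Finset.mem_erase, Finset.mem_erase, Finset.mem_image] at hZ
  obtain ⟨h4, h5, x, -, h6⟩ := hZ
  exact ⟨Z, h6 ▸ x.2, h5, h4⟩

namespace TPlane

variable (hP : TPlane p linf e C) {X : P} (hX : X ∈ linf) {Y₀ : P} (hY₀ : Y₀ ∈ linf)
  (hXY : X ≠ Y₀)

include hP hX hY₀ hXY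

/-- two components have the same number of elements -/
theorem card_eq [Finite P] : Nat.card (C X) = Nat.card (C Y₀) := by
  obtain ⟨Z, hZ, hZX, hZY⟩ := third_point (P := P) linf X Y₀
  -- the map `C Y₀ → C X` of slope `Z`
  refine (Nat.card_eq_of_bijective (hP.sl hX Y₀ ⟨Z, hZ, hZX⟩) ⟨?_, ?_⟩).symm
  · rw [← LinearMap.ker_eq_bot, LinearMap.ker_eq_bot']
    intro q hq
    have h1 := (hP.mem_iff hX ⟨Z, hZ, hZX⟩ q 0).2 hq.symm
    rw [Submodule.coe_zero, add_zero] at h1
    ext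
    exact hP.inf_eq_bot hZ hY₀ hZY h1 q.2
  · intro w
    obtain ⟨z, hz, y, hy, hw⟩ := hP.exists_add hZ hY₀ hZY (w : V)
    refine ⟨⟨-y, (C Y₀).neg_mem hy⟩, ((hP.mem_iff hX ⟨Z, hZ, hZX⟩ _ w).1 ?_).symm⟩
    have : -y + (w : V) = z := by
      rw [hw]
      abel
    change -y + (w : V) ∈ C Z
    rwa [this]

theorem card_mul : Nat.card (C X) * Nat.card (C Y₀) = Nat.card V := by
  rw [← Nat.card_prod]
  exact Nat.card_congr
    (Submodule.prodEquivOfIsCompl _ _ (hP.isCompl hX hY₀ hXY)).toEquiv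

theorem card_comp [Finite P] (hp : 0 < p) (hV : Nat.card V = p ^ 4) :
    Nat.card (C X) = p ^ 2 ∧ Nat.card (C Y₀) = p ^ 2 := by
  have h1 := hP.card_mul hX hY₀ hXY
  have h2 := hP.card_eq hX hY₀ hXY
  rw [← h2, hV] at h1
  have h3 : Nat.card (C X) = p ^ 2 := by
    have h4 : Nat.card (C X) ^ 2 = (p ^ 2) ^ 2 := by
      rw [sq, h1, ← pow_mul]
    exact Nat.pow_left_injective (by norm_num) h4
  exact ⟨h3, h2 ▸ h3⟩

/-- **Main theorem in coordinates.** -/
theorem exists_gen [Finite P] [Finite V] [Fact p.Prime] (hp2 : p ≠ 2) (hV : Nat.card V = p ^ 4)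
    (hnd : ¬ ∀ Y Y' Y'' : Inf P linf X,
      ∃ Z, hP.sl hX Y₀ Z = hP.sl hX Y₀ Y - hP.sl hX Y₀ Y' + hP.sl hX Y₀ Y'') :
    ∃ a b c : P, Gen L X a b c := by
  classical
  have hpr : p.Prime := Fact.out
  haveI : NeZero p := ⟨hpr.ne_zero⟩
  obtain ⟨hcX, hcY⟩ := hP.card_comp hX hY₀ hXY hpr.pos hV
  have bij := hP.sl_bijective hX hY₀ hXY
  cases nonempty_fintype (C X)
  cases nonempty_fintype (Inf P linf X)
  have hfr : Module.finrank (ZMod p) (C Y₀) = 2 := by
    have h1 := Module.natCard_eq_pow_finrank (K := ZMod p) (V := C Y₀)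
    rw [hcY, Nat.card_zmod] at h1
    exact (Nat.pow_right_injective hpr.two_le h1).symm
  have hp1 : p < p ^ 2 := by
    have := hpr.two_le
    nlinarith
  -- a basis of `C Y₀`
  obtain ⟨q1, hq1⟩ : ∃ q1 : C Y₀, q1 ≠ 0 := by
    have h1 : 1 < Nat.card (C Y₀) := by
      rw [hcY]
      have := hpr.two_le
      nlinarith
    have h2 : Nontrivial (C Y₀) := Finite.one_lt_card_iff_nontrivial.1 h1
    exact exists_ne 0
  obtain ⟨q2, hq2⟩ : ∃ q2 : C Y₀, ∀ c : ZMod p, q2 ≠ c • q1 := by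
    by_contra hcon
    push Not at hcon
    have h1 : Function.Surjective (fun c : ZMod p => c • q1) := fun q => by
      obtain ⟨c, hc⟩ := hcon q
      exact ⟨c, hc.symm⟩
    have h2 := Nat.card_le_card_of_surjective _ h1
    rw [Nat.card_zmod, hcY] at h2
    omega
  have hq20 : q2 ≠ 0 := by
    have := hq2 0
    rwa [zero_smul] at this
  have hq12 : q1 ≠ q2 := by
    have := hq2 1
    rw [one_smul] at this
    exact this.symm
  obtain ⟨u, hu0⟩ : ∃ u : C X, u ≠ 0 := by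
    have h1 : 1 < Nat.card (C X) := by
      rw [hcX]
      have := hpr.two_le
      nlinarith
    have h2 : Nontrivial (C X) := Finite.one_lt_card_iff_nontrivial.1 h1
    exact exists_ne 0
  have hcM : Fintype.card (Inf P linf X) = p ^ 2 := by
    rw [← hcX, ← Nat.card_eq_fintype_card]
    exact Nat.card_eq_of_bijective _ (bij q1 hq1)
  obtain ⟨Y, hY⟩ := core hp2 hfr (by rw [← Nat.card_eq_fintype_card, hcX]) hcM bij hnd hq1 hq20
    hq12 hu0
  set N := hP.sl hX Y₀ with hN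
  set w1 : C X := u + N Y q1 with hw1
  set w2 : C X := u + N Y q2 with hw2
  have hA0 : (q1 : V) + w1 ∉ C X := by
    intro h
    apply hq1
    ext
    exact hP.inf_eq_bot hX hY₀ hXY (((C X).add_mem_iff_left w1.2).1 h) q1.2
  have hB0 : (q2 : V) + w2 ∉ C X := by
    intro h
    apply hq20
    ext
    exact hP.inf_eq_bot hX hY₀ hXY (((C X).add_mem_iff_left w2.2).1 h) q2.2
  have hncol : ∀ Z ∈ linf, ¬ ((q1 : V) + w1 ∈ C Z ∧ (q2 : V) + w2 ∈ C Z) := by
    rintro Z hZ ⟨h1, h2⟩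
    by_cases hZX : Z = X
    · rw [hZX] at h1
      exact hA0 h1
    · exact no_shift (fun q hq => (bij q hq).1) hq12 hu0
        ((hP.mem_iff hX ⟨Z, hZ, hZX⟩ q1 w1).1 h1).symm
        ((hP.mem_iff hX ⟨Z, hZ, hZX⟩ q2 w2).1 h2).symm
  have hmem : ∀ {Z : P} (_ : Z ∈ linf) {l : L} (_ : Z ∈ l) {x y : V} (_ : e x ∈ l)
      (_ : e y ∈ l), y - x ∈ C Z := by
    intro Z hZ l hZl x y hx hy
    exact (hP.mem Z hZ l (hP.ne_linf hx) hZl x y hx).1 hy
  refine ⟨e 0, e ((q1 : V) + w1), e ((q2 : V) + w2), ?_, ?_, ?_, ?_, ?_⟩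
  · rintro ⟨l, h1, h2, h3⟩
    have := hmem hX h1 h2 h3
    rw [sub_zero] at this
    exact hA0 this
  · rintro ⟨l, h1, h2, h3⟩
    have := hmem hX h1 h2 h3
    rw [sub_zero] at this
    exact hB0 this
  · rintro ⟨l, h1, h2, h3⟩
    have h4 := hmem hX h1 h2 h3
    have h5 : (q2 : V) + w2 - (q1 + w1) = (q2 - q1) + (w2 - w1) := by abel
    rw [h5, (C X).add_mem_iff_left ((C X).sub_mem w2.2 w1.2)] at h4
    have h6 := hP.inf_eq_bot hX hY₀ hXY h4 ((C Y₀).sub_mem q2.2 q1.2)
    exact hq12 (Subtype.ext (sub_eq_zero.1 h6)).symm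
  · rintro ⟨l, h1, h2, h3⟩
    obtain ⟨Z, h4, h5⟩ := exists_point (P := P) (hP.ne_linf h1)
    have h6 := hmem h5 h4 h1 h2
    have h7 := hmem h5 h4 h1 h3
    rw [sub_zero] at h6 h7
    exact hncol Z h5 ⟨h6, h7⟩
  · intro S hXS h0 hA hB hS
    -- the point `u`
    have hu : e (u : V) ∈ S := by
      obtain ⟨k, a1, a2, a3⟩ := hP.exists_slope_line hX (Y₀ := Y₀) (Y, u)
      obtain ⟨k', b1, b2, b3, b4⟩ := hP.exists_line 0 hX
      have hev : ∀ q : C Y₀, ev N (Y, u) q = u + N Y q := fun q => by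
        unfold ev
        exact add_comm _ _
      refine hS.inter (hP.line_ne Y.2.1 hX Y.2.2 a2 a1 b2) hA hB ?_ ((a3 q1 w1).2 ?_)
        ((a3 q2 w2).2 ?_) h0 hXS (hP.ne_inf hX _) b1 b2 ?_ ((b4 _).2 ?_)
      · intro h
        exact hq12 (hP.coord_inj hX hY₀ hXY (hP.inj h)).1
      · rw [hev]
      · rw [hev]
      · have h1 := (a3 0 u).2 (by rw [hev, map_zero, add_zero])
        rwa [Submodule.coe_zero, zero_add] at h1
      · rw [sub_zero]
        exact u.2
    by_cases honly : ∀ x ∈ S, x ∈ linf → x = X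
    · obtain ⟨F, D, Λ, hT, t1, t2, t3, t4, t5, t6⟩ := hP.tang hX hY₀ hXY hS hXS honly hq1 hq20
        hq12 hu0 h0 hu hA hB hncol
      exact absurd (hY F D Λ hT t1 t2 t3 t4 t5 t6) not_false
    · push Not at honly
      obtain ⟨X', hXS', hX', hne⟩ := honly
      refine hP.full hS hX hX' hne.symm hXS hXS' h0 hA hB hncol ?_ u.2 (fun h => hu0 (Subtype.ext h))
        hu hA0
      intro v
      obtain ⟨x, hx, q, hq, rfl⟩ := hP.exists_add hX hY₀ hXY v
      obtain ⟨α, β, h1⟩ := span_pair_top hfr hq1 hq2 ⟨q, hq⟩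
      refine ⟨α, β, ?_⟩
      have h2 : q = α • (q1 : V) + β • (q2 : V) := by
        have := congrArg Subtype.val h1
        simpa using this
      have h3 : x + q - (α • ((q1 : V) + w1) + β • ((q2 : V) + w2)) =
          x - (α • (w1 : V) + β • (w2 : V)) := by
        rw [h2, smul_add, smul_add]
        abel
      rw [h3]
      exact (C X).sub_mem hx ((C X).add_mem ((C X).smul_mem α w1.2) ((C X).smul_mem β w2.2))

end TPlane

end Pool.Agent.H58.TP
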