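import Pool.Agent.H58.TP.Desargues

/-!
# Translation planes of order `p^2` with an additive spread set are Desarguesian
-/

set_option autoImplicit false

open Configuration Matrix

namespace Pool.Agent.H58.TP

variable {P L : Type} [Membership P L] [ProjectivePlane P L]
variable {p : ℕ} {V : Type} [AddCommGroup V] [Module (ZMod p) V]
variable {linf : L} {e : V → P} {C : P → Submodule (ZMod p) V}

theorem dot3 {K : Type} [Field K] (a b c a' b' c' : K) :
    ![a, b, c] ⬝ᵥ ![a', b', c'] = a * a' + b * b' + c * c' := by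
  simp [dotProduct, Fin.sum_univ_three]

namespace TPlane

variable (hP : TPlane p linf e C) {X : P} (hX : X ∈ linf) {Y₀ : P} (hY₀ : Y₀ ∈ linf)
  (hXY : X ≠ Y₀)

include hP hX hY₀ hXY

/-- homogeneous coordinates -/
theorem exists_coord {K : Type} [Field K] (κ : C X → K) (hκ : Function.Injective κ)
    (m : Inf P linf X → K) (hm : Function.Injective m) (J : C Y₀ → C X)
    (hJ : Function.Injective J)
    (h : ∀ Y q b, κ (hP.sl hX Y₀ Y q + b) = m Y * κ (J q) + κ b) :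
    ∃ (c : P → Fin 3 → K) (d : L → Fin 3 → K), (∀ x, c x ≠ 0) ∧ (∀ l, d l ≠ 0) ∧
      ∀ x l, x ∈ l ↔ c x ⬝ᵥ d l = 0 := by
  classical
  have hpt : ∀ x : P, (∃ q w, x = e ((q : C Y₀) + (w : C X) : V)) ∨
      (∃ Y : Inf P linf X, x = Y.1) ∨ x = X := by
    intro x
    by_cases hx : x ∈ linf
    · by_cases hxX : x = X
      · exact Or.inr (Or.inr hxX)
      · exact Or.inr (Or.inl ⟨⟨x, hx, hxX⟩, rfl⟩)
    · obtain ⟨v, rfl⟩ := (hP.ran x).1 hx
      obtain ⟨y, hy, w, hw, rfl⟩ := hP.exists_add hY₀ hX hXY.symm v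
      exact Or.inl ⟨⟨y, hy⟩, ⟨w, hw⟩, rfl⟩
  have hline : ∀ l : L, (∃ (Y : Inf P linf X) (b : C X), Y.1 ∈ l ∧ e (b : V) ∈ l) ∨
      (∃ q : C Y₀, X ∈ l ∧ e (q : V) ∈ l) ∨ l = linf := by
    intro l
    by_cases hl : l = linf
    · exact Or.inr (Or.inr hl)
    obtain ⟨Z, h1, h2⟩ := exists_point (P := P) hl
    by_cases hZ : Z = X
    · obtain ⟨k, a1, a2, a3, a4⟩ := hP.exists_line 0 hY₀
      obtain ⟨x, h3, h4⟩ := exists_point (P := P) (hP.line_ne hX hY₀ hXY hl (hZ ▸ h1) a2)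
      have h5 : x ∉ linf := by
        intro h5
        have e1 : x = Y₀ := point_unique a3 h4 a2 h5 hY₀
        rw [e1] at h3
        exact hl (line_unique hXY (hZ ▸ h1) h3 hX hY₀)
      obtain ⟨v, rfl⟩ := (hP.ran x).1 h5
      have h6 := (a4 v).1 h4
      rw [sub_zero] at h6
      exact Or.inr (Or.inl ⟨⟨v, h6⟩, hZ ▸ h1, h3⟩)
    · obtain ⟨k, a1, a2, a3, a4⟩ := hP.exists_line 0 hX
      obtain ⟨x, h3, h4⟩ := exists_point (P := P) (hP.line_ne h2 hX hZ hl h1 a2)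
      have h5 : x ∉ linf := by
        intro h5
        have e1 : x = X := point_unique a3 h4 a2 h5 hX
        rw [e1] at h3
        exact hl (line_unique hZ h1 h3 h2 hX)
      obtain ⟨v, rfl⟩ := (hP.ran x).1 h5
      have h6 := (a4 v).1 h4
      rw [sub_zero] at h6
      exact Or.inl ⟨⟨Z, h2, hZ⟩, ⟨v, h6⟩, h1, h3⟩
  -- incidence of affine points
  have hYb : ∀ (Y : Inf P linf X) (b : C X) (l : L), Y.1 ∈ l → e (b : V) ∈ l →
      ∀ (q : C Y₀) (w : C X), e ((q : V) + w) ∈ l ↔ w = hP.sl hX Y₀ Y q + b := by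
    intro Y b l h1 h2 q w
    rw [hP.mem Y.1 Y.2.1 l (hP.ne_linf h2) h1 _ _ h2]
    have h5 : (q : V) + w - b = (q : V) + ((w - b : C X) : V) := by
      rw [Submodule.coe_sub]
      abel
    rw [h5, hP.mem_iff hX Y q (w - b)]
    exact sub_eq_iff_eq_add
  have hXq : ∀ (q' : C Y₀) (l : L), X ∈ l → e (q' : V) ∈ l →
      ∀ (q : C Y₀) (w : C X), e ((q : V) + w) ∈ l ↔ q = q' := by
    intro q' l h1 h2 q w
    rw [hP.mem X hX l (hP.ne_linf h2) h1 _ _ h2]
    constructor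
    · intro h3
      have h4 : (q : V) + w - q' = (q - q') + w := by abel
      rw [h4, (C X).add_mem_iff_left w.2] at h3
      have h5 := hP.inf_eq_bot hX hY₀ hXY h3 ((C Y₀).sub_mem q.2 q'.2)
      exact Subtype.ext (sub_eq_zero.1 h5)
    · rintro rfl
      rw [add_sub_cancel_left]
      exact w.2
  have hnX : ∀ (Y : Inf P linf X) (v : V) (l : L), Y.1 ∈ l → e v ∈ l → X ∉ l := by
    intro Y v l h1 h2 h3
    exact hP.ne_linf h2 (line_unique Y.2.2 h1 h3 Y.2.1 hX)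
  have hnY : ∀ (Y Y' : Inf P linf X) (v : V) (l : L), Y.1 ∈ l → e v ∈ l → (Y'.1 ∈ l ↔ Y' = Y) := by
    intro Y Y' v l h1 h2
    constructor
    · intro h3
      by_contra hne
      exact hP.ne_linf h2 (line_unique (fun h => hne (Subtype.ext h)) h3 h1 Y'.2.1 Y.2.1)
    · rintro rfl
      exact h1
  -- the coordinates of the points
  have hcex : ∀ x : P, ∃ v : Fin 3 → K,
      ((∃ q w, x = e ((q : C Y₀) + (w : C X) : V) ∧ v = ![κ (J q), κ w, 1]) ∨
      (∃ Y : Inf P linf X, x = Y.1 ∧ v = ![1, m Y, 0]) ∨ (x = X ∧ v = ![0, 1, 0])) := by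
    intro x
    rcases hpt x with ⟨q, w, hx⟩ | ⟨Y, hx⟩ | hx
    · exact ⟨_, Or.inl ⟨q, w, hx, rfl⟩⟩
    · exact ⟨_, Or.inr (Or.inl ⟨Y, hx, rfl⟩)⟩
    · exact ⟨_, Or.inr (Or.inr ⟨hx, rfl⟩)⟩
  have hdex : ∀ l : L, ∃ v : Fin 3 → K,
      ((∃ (Y : Inf P linf X) (b : C X), Y.1 ∈ l ∧ e (b : V) ∈ l ∧ v = ![m Y, -1, κ b]) ∨
      (∃ q : C Y₀, X ∈ l ∧ e (q : V) ∈ l ∧ v = ![1, 0, -κ (J q)]) ∨
      (l = linf ∧ v = ![0, 0, 1])) := by
    intro l
    rcases hline l with ⟨Y, b, h1, h2⟩ | ⟨q, h1, h2⟩ | hl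
    · exact ⟨_, Or.inl ⟨Y, b, h1, h2, rfl⟩⟩
    · exact ⟨_, Or.inr (Or.inl ⟨q, h1, h2, rfl⟩)⟩
    · exact ⟨_, Or.inr (Or.inr ⟨hl, rfl⟩)⟩
  choose c hc using hcex
  choose d hd using hdex
  refine ⟨c, d, ?_, ?_, ?_⟩
  · intro x h0
    rcases hc x with ⟨q, w, -, h1⟩ | ⟨Y, -, h1⟩ | ⟨-, h1⟩
    · have := congrFun (h1.symm.trans h0) 2
      simp at this
    · have := congrFun (h1.symm.trans h0) 0
      simp at this
    · have := congrFun (h1.symm.trans h0) 1
      simp at this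
  · intro l h0
    rcases hd l with ⟨Y, b, -, -, h1⟩ | ⟨q, -, -, h1⟩ | ⟨-, h1⟩
    · have := congrFun (h1.symm.trans h0) 1
      simp at this
    · have := congrFun (h1.symm.trans h0) 0
      simp at this
    · have := congrFun (h1.symm.trans h0) 2
      simp at this
  · intro x l
    rcases hc x with ⟨q, w, hx, h1⟩ | ⟨Y, hx, h1⟩ | ⟨hx, h1⟩ <;>
      rcases hd l with ⟨Y', b, h2, h3, h4⟩ | ⟨q', h2, h3, h4⟩ | ⟨h2, h4⟩ <;>
      rw [h1, h4]
    · rw [hx, hYb Y' b l h2 h3 q w, ← hκ.eq_iff, h]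
      rw [dot3]
      constructor
      · intro h5
        rw [h5]
        ring
      · intro h5
        linear_combination -h5
    · rw [hx, hXq q' l h2 h3 q w, ← hJ.eq_iff, ← hκ.eq_iff]
      rw [dot3]
      constructor
      · intro h5
        rw [h5]
        ring
      · intro h5
        linear_combination h5
    · rw [hx, h2]
      simp [hP.notMem]
    · rw [hx, hnY Y' Y _ l h2 h3, ← hm.eq_iff]
      rw [dot3]
      constructor
      · intro h5
        rw [h5]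
        ring
      · intro h5
        linear_combination -h5
    · have h5 : Y.1 ∉ l := by
        intro h5
        exact hnX Y _ l h5 h3 h2
      rw [hx]
      simp [h5]
    · rw [hx, h2]
      simp [Y.2.1]
    · have h5 : X ∉ l := hnX Y' _ l h2 h3
      rw [hx]
      simp [h5]
    · rw [hx]
      simp [h2]
    · rw [hx, h2]
      simp [hX]

end TPlane

end Pool.Agent.H58.TP
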