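import Pool.Agent.H58.TP.Field

/-!
# The translation group

`IsTr linf σ`: `σ` is the identity or a collineation that fixes exactly the points of `linf`.  If these
collineations are transitive on the points off `linf`, they form an abelian group acting regularly on
the points off `linf`; the collineations with centre `Y` are the components.
-/

set_option autoImplicit false

open Configuration

namespace Pool.Agent.H58.TP

variable {P L : Type} [Membership P L] [ProjectivePlane P L]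

theorem perm_apply_inv {α : Type} (σ : Equiv.Perm α) (x : α) : σ (σ⁻¹ x) = x :=
  Equiv.apply_symm_apply σ x

theorem perm_inv_apply {α : Type} (σ : Equiv.Perm α) (x : α) : σ⁻¹ (σ x) = x :=
  Equiv.symm_apply_apply σ x

/-- collineations -/
def IsColl (L : Type) {P : Type} [Membership P L] (σ : Equiv.Perm P) : Prop :=
  ∃ τ : Equiv.Perm L, ∀ (x : P) (l : L), σ x ∈ τ l ↔ x ∈ l

/-- translations -/
def IsTr (linf : L) (σ : Equiv.Perm P) : Prop :=
  IsColl L σ ∧ (σ = 1 ∨ ∀ x, σ x = x ↔ x ∈ linf)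

theorem IsColl.one : IsColl L (1 : Equiv.Perm P) := ⟨1, fun _ _ => Iff.rfl⟩

theorem IsColl.mul {σ ρ : Equiv.Perm P} (h1 : IsColl L σ) (h2 : IsColl L ρ) :
    IsColl L (σ * ρ) := by
  obtain ⟨τ, hτ⟩ := h1
  obtain ⟨τ', hτ'⟩ := h2
  exact ⟨τ * τ', fun x l => (hτ _ _).trans (hτ' _ _)⟩

theorem IsColl.inv {σ : Equiv.Perm P} (h1 : IsColl L σ) : IsColl L σ⁻¹ := by
  obtain ⟨τ, hτ⟩ := h1
  refine ⟨τ⁻¹, fun x l => ?_⟩
  rw [← hτ, perm_apply_inv, perm_apply_inv]

theorem IsColl.line {σ : Equiv.Perm P} (h1 : IsColl L σ) (l : L) :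
    ∃ l' : L, ∀ x, σ x ∈ l' ↔ x ∈ l := by
  obtain ⟨τ, hτ⟩ := h1
  exact ⟨τ l, fun x => hτ x l⟩

theorem exists_off_line (l : L) (linf : L) (h : l ≠ linf) [Finite P] :
    ∃ x : P, x ∉ linf ∧ x ∉ l := by
  -- a point of a line through a point of `linf` off `l`
  obtain ⟨c, hc1, hc2⟩ := exists_point (P := P) h
  obtain ⟨y, hy, hyc, -⟩ := third_point (P := P) linf c c
  obtain ⟨z, hz, hzc, -⟩ := third_point (P := P) l c c
  have hyz : y ≠ z := by
    rintro rfl
    exact hyc (point_unique h hz hc1 hy hc2)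
  obtain ⟨k, hk1, hk2⟩ := exists_line (L := L) hyz
  obtain ⟨x, hx, hxy, hxz⟩ := third_point (P := P) k y z
  refine ⟨x, ?_, ?_⟩
  · intro h1
    have h2 : k = linf := line_unique hxy hx hk1 h1 hy
    rw [h2] at hk2
    exact hzc (point_unique h hz hc1 hk2 hc2)
  · intro h1
    have h2 : k = l := line_unique hxz hx hk2 h1 hz
    rw [h2] at hk1
    exact hyc (point_unique h hk1 hc1 hy hc2)

theorem exists_off_point (l : L) (c : P) [Finite P] : ∃ x : P, x ∉ l ∧ x ≠ c := by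
  obtain ⟨z, hz⟩ := Nondegenerate.exists_point (P := P) l
  by_cases hzc : z = c
  · obtain ⟨y, hy, -, -⟩ := third_point (P := P) l c c
    have hyc : y ≠ c := by
      rintro rfl
      exact hz (hzc ▸ hy)
    obtain ⟨k, hk1, hk2⟩ := exists_line (L := L) hyc
    obtain ⟨x, hx, hxy, hxc⟩ := third_point (P := P) k y c
    refine ⟨x, ?_, hxc⟩
    intro h1
    have h2 : k = l := line_unique hxy hx hk1 h1 hy
    exact hz (hzc ▸ h2 ▸ hk2)
  · exact ⟨z, hz, hzc⟩

variable {linf : L}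

namespace IsTr

theorem one : IsTr linf (1 : Equiv.Perm P) := ⟨IsColl.one, Or.inl rfl⟩

theorem inv {σ : Equiv.Perm P} (h : IsTr linf σ) : IsTr linf σ⁻¹ := by
  refine ⟨h.1.inv, ?_⟩
  rcases h.2 with h1 | h1
  · left
    rw [h1, inv_one]
  · right
    intro x
    rw [Equiv.Perm.inv_eq_iff_eq, ← h1 x]
    exact eq_comm

theorem fix {σ : Equiv.Perm P} (h : IsTr linf σ) {x : P} (hx : x ∈ linf) : σ x = x := by
  rcases h.2 with h1 | h1
  · rw [h1]
    rfl
  · exact (h1 x).2 hx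

theorem eq_one {σ : Equiv.Perm P} (h : IsTr linf σ) {x : P} (hx : x ∉ linf) (hσ : σ x = x) :
    σ = 1 := by
  rcases h.2 with h1 | h1
  · exact h1
  · exact absurd ((h1 x).1 hσ) hx

theorem off {σ : Equiv.Perm P} (h : IsTr linf σ) {x : P} (hx : x ∉ linf) : σ x ∉ linf := by
  intro h1
  have h2 := h.fix h1
  exact hx (by rwa [σ.injective h2] at h1)

/-- the centre -/
theorem centre {σ : Equiv.Perm P} (h : IsTr linf σ) {z : P} (hz : z ∉ linf) (hzσ : σ z ≠ z)
    {c : P} (hc : c ∈ linf) {m : L} (h1 : z ∈ m) (h2 : σ z ∈ m) (h3 : c ∈ m) {x : P}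
    (hx : x ∉ linf) {l : L} (hxl : x ∈ l) (hcl : c ∈ l) : σ x ∈ l := by
  have hσ1 : σ ≠ 1 := by
    rintro rfl
    exact hzσ rfl
  have hxc : x ≠ c := by
    rintro rfl
    exact hx hc
  -- a line `n` with `w, σ w ∈ n` is preserved
  have key : ∀ (w : P) (n : L) (y : P), w ∉ linf → w ∈ n → σ w ∈ n → y ∈ linf → y ∈ n →
      ∀ v, σ v ∈ n ↔ v ∈ n := by
    intro w n y hw a1 a2 a3 a4
    obtain ⟨n', hn'⟩ := h.1.line n
    have h4 : σ w ∈ n' := (hn' w).2 a1
    have h5 : y ∈ n' := by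
      have := (hn' y).2 a4
      rwa [h.fix a3] at this
    have h6 : σ w ≠ y := by
      intro h6
      exact h.off hw (h6 ▸ a3)
    have h7 : n' = n := line_unique h6 h4 h5 a2 a4
    rw [← h7]
    intro v
    rw [hn', h7]
  by_cases hxm : x ∈ m
  · have h4 : l = m := line_unique hxc hxl hcl hxm h3
    rw [h4]
    exact (key z m c hz h1 h2 hc h3 x).2 hxm
  · have hxσ : σ x ≠ x := fun h4 => hσ1 (h.eq_one hx h4)
    obtain ⟨n, hn1, hn2⟩ := exists_line (L := L) hxσ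
    have hnl : n ≠ linf := by
      rintro rfl
      exact hx hn2
    obtain ⟨c', hc1, hc2⟩ := exists_point (P := P) hnl
    have hnm : n ≠ m := by
      rintro rfl
      exact hxm hn2
    obtain ⟨w, hw1, hw2⟩ := exists_point (P := P) hnm
    have h4 : σ w ∈ n := (key x n c' hx hn2 hn1 hc2 hc1 w).2 hw1
    have h5 : σ w ∈ m := (key z m c hz h1 h2 hc h3 w).2 hw2
    have h6 : σ w = w := point_unique hnm h4 hw1 h5 hw2
    have h7 : w ∈ linf := by
      by_contra h7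
      exact hσ1 (h.eq_one h7 h6)
    have hml : m ≠ linf := by
      rintro rfl
      exact hz h1
    have h8 : w = c := point_unique hml hw2 h3 h7 hc
    have h9 : l = n := line_unique hxc hxl hcl hn2 (h8 ▸ hw1)
    rw [h9]
    exact hn1

theorem unique_aux {σ ρ : Equiv.Perm P} (h : IsTr linf σ) (h' : IsTr linf ρ) {z : P}
    (hz : z ∉ linf) (hσρ : σ z = ρ z) {c : P} (hc : c ∈ linf) {m : L} (h1 : z ∈ m)
    (h3 : c ∈ m) {x : P} (hx : x ∉ linf) (hxm : x ∉ m)
    (hl1 : ∀ l : L, x ∈ l → c ∈ l → σ x ∈ l) (hl2 : ∀ l : L, x ∈ l → c ∈ l → ρ x ∈ l) :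
    σ x = ρ x := by
  have hzx : z ≠ x := by
    rintro rfl
    exact hxm h1
  have hxc : x ≠ c := by
    rintro rfl
    exact hx hc
  have hzc : z ≠ c := by
    rintro rfl
    exact hz hc
  obtain ⟨k, hk1, hk2⟩ := exists_line (L := L) hzx
  have hkl : k ≠ linf := by
    rintro rfl
    exact hx hk2
  obtain ⟨y, hy1, hy2⟩ := exists_point (P := P) hkl
  obtain ⟨k1, hk1'⟩ := h.1.line k
  obtain ⟨k2, hk2'⟩ := h'.1.line k
  have hyσ : y ∈ k1 := by
    have := (hk1' y).2 hy1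
    rwa [h.fix hy2] at this
  have hyρ : y ∈ k2 := by
    have := (hk2' y).2 hy1
    rwa [h'.fix hy2] at this
  have hσzy : σ z ≠ y := by
    intro h6
    exact h.off hz (h6 ▸ hy2)
  have h12 : k1 = k2 := line_unique hσzy ((hk1' z).2 hk1) hyσ (hσρ ▸ (hk2' z).2 hk1) hyρ
  obtain ⟨l, hl3, hl4⟩ := exists_line (L := L) hxc
  have hlk : k1 ≠ l := by
    rintro rfl
    have hyc : y ≠ c := by
      rintro rfl
      have : k = m := line_unique hzc hk1 hy1 h1 h3
      exact hxm (this ▸ hk2)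
    have : k1 = linf := line_unique hyc hyσ hl4 hy2 hc
    exact h.off hz (this ▸ (hk1' z).2 hk1)
  exact point_unique hlk ((hk1' x).2 hk2) (h12 ▸ (hk2' x).2 hk2) (hl1 l hl3 hl4) (hl2 l hl3 hl4)

/-- a translation is determined by the image of one point -/
theorem unique [Finite P] {σ ρ : Equiv.Perm P} (h : IsTr linf σ) (h' : IsTr linf ρ) {z : P}
    (hz : z ∉ linf) (hσρ : σ z = ρ z) : σ = ρ := by
  by_cases hzσ : σ z = z
  · rw [h.eq_one hz hzσ, h'.eq_one hz (hσρ ▸ hzσ)]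
  obtain ⟨m, hm1, hm2⟩ := exists_line (L := L) hzσ
  have hml : m ≠ linf := by
    rintro rfl
    exact hz hm2
  obtain ⟨c, hc1, hc2⟩ := exists_point (P := P) hml
  have hl1 : ∀ x ∉ linf, ∀ l : L, x ∈ l → c ∈ l → σ x ∈ l := fun x hx l h1 h2 =>
    h.centre hz hzσ hc2 hm2 hm1 hc1 hx h1 h2
  have hl2 : ∀ x ∉ linf, ∀ l : L, x ∈ l → c ∈ l → ρ x ∈ l := fun x hx l h1 h2 =>
    h'.centre hz (hσρ ▸ hzσ) hc2 hm2 (hσρ ▸ hm1) hc1 hx h1 h2
  have h1 : ∀ x, x ∉ linf → x ∉ m → σ x = ρ x := fun x hx hxm =>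
    h.unique_aux h' hz hσρ hc2 hm2 hc1 hx hxm (hl1 x hx) (hl2 x hx)
  ext x
  by_cases hx : x ∈ linf
  · rw [h.fix hx, h'.fix hx]
  by_cases hxm : x ∈ m
  · obtain ⟨x', hx'1, hx'2⟩ := exists_off_line m linf hml
    have hx'c : x' ≠ c := by
      rintro rfl
      exact hx'1 hc2
    have hxc : x ≠ c := by
      rintro rfl
      exact hx hc2
    obtain ⟨m', hm'1, hm'2⟩ := exists_line (L := L) hx'c
    refine h.unique_aux h' hx'1 (h1 x' hx'1 hx'2) hc2 hm'1 hm'2 hx ?_ (hl1 x hx) (hl2 x hx)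
    intro h4
    have : m' = m := line_unique hxc h4 hm'2 hxm hc1
    exact hx'2 (this ▸ hm'1)
  · exact h1 x hx hxm

theorem mul [Finite P] {σ ρ : Equiv.Perm P} (h : IsTr linf σ) (h' : IsTr linf ρ) :
    IsTr linf (σ * ρ) := by
  refine ⟨h.1.mul h'.1, ?_⟩
  by_cases hfix : ∃ x, x ∉ linf ∧ (σ * ρ) x = x
  · obtain ⟨x, hx, h1⟩ := hfix
    left
    have h2 : ρ x = σ⁻¹ x := by
      rw [Equiv.Perm.eq_inv_iff_eq]
      exact h1
    have h3 := h'.unique h.inv hx h2
    rw [h3, mul_inv_cancel]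
  · push Not at hfix
    right
    intro x
    constructor
    · intro h1
      by_contra h2
      exact hfix x h2 h1
    · intro h1
      rw [Equiv.Perm.mul_apply, h'.fix h1, h.fix h1]

end IsTr

variable [Finite P]

/-- the translation group -/
def TG (linf : L) : Subgroup (Equiv.Perm P) where
  carrier := {σ | IsTr linf σ}
  mul_mem' := fun h1 h2 => IsTr.mul h1 h2
  one_mem' := IsTr.one
  inv_mem' := fun h => IsTr.inv h

theorem TG.prop (g : TG (P := P) linf) : IsTr linf g.1 := g.2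

/-- the translations that preserve the lines through `Y` -/
def CG (linf : L) (Y : P) : Subgroup (TG (P := P) linf) where
  carrier := {g | ∀ l : L, Y ∈ l → ∀ x, x ∈ l → g.1 x ∈ l}
  mul_mem' := fun {a b} h1 h2 l hl x hx => h1 l hl _ (h2 l hl x hx)
  one_mem' := fun l _ x hx => hx
  inv_mem' := fun {a} h1 l hl x hx => by
    obtain ⟨l', hl'⟩ := a.2.1.line l
    obtain ⟨y, hy, hyx, -⟩ := third_point (P := P) l x x
    have h2 : l' = l := line_unique (a.1.injective.ne hyx) ((hl' y).2 hy) ((hl' x).2 hx)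
      (h1 l hl y hy) (h1 l hl x hx)
    have h3 := hl' (a.1⁻¹ x)
    rw [perm_apply_inv, h2] at h3
    exact h3.1 hx

theorem mem_CG_iff {Y : P} (hY : Y ∈ linf) {l : L} (hYl : Y ∈ l) {x : P} (hx : x ∉ linf)
    (hxl : x ∈ l) (g : TG (P := P) linf) : g.1 x ∈ l ↔ g ∈ CG linf Y := by
  constructor
  · intro h
    by_cases hg : g.1 x = x
    · have h1 : g = 1 := Subtype.ext (g.2.eq_one hx hg)
      rw [h1]
      exact (CG linf Y).one_mem
    · intro k hk y hy
      by_cases hyl : y ∈ linf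
      · rwa [g.2.fix hyl]
      · exact g.2.centre hx hg hY hxl h hYl hyl hy hk
  · intro h
    exact h l hYl x hxl

theorem CG_inf {Y Y' : P} (hY : Y ∈ linf) (hY' : Y' ∈ linf) (hne : Y ≠ Y')
    {g : TG (P := P) linf} (h1 : g ∈ CG linf Y) (h2 : g ∈ CG linf Y') : g = 1 := by
  obtain ⟨x, hx⟩ := Nondegenerate.exists_point (P := P) linf
  have hxY : x ≠ Y := by
    rintro rfl
    exact hx hY
  have hxY' : x ≠ Y' := by
    rintro rfl
    exact hx hY'
  obtain ⟨l, hl1, hl2⟩ := exists_line (L := L) hxY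
  obtain ⟨l', hl1', hl2'⟩ := exists_line (L := L) hxY'
  have hll : l ≠ l' := by
    rintro rfl
    exact hx ((line_unique hne hl2 hl2' hY hY') ▸ hl1)
  refine Subtype.ext (g.2.eq_one hx ?_)
  exact point_unique hll (h1 l hl2 x hl1) hl1 (h2 l' hl2' x hl1') hl1'

theorem CG_exists (g : TG (P := P) linf) : ∃ Y ∈ linf, g ∈ CG linf Y := by
  obtain ⟨x, hx⟩ := Nondegenerate.exists_point (P := P) linf
  by_cases hg : g.1 x = x
  · obtain ⟨Y, hY, -, -⟩ := third_point (P := P) linf x x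
    refine ⟨Y, hY, ?_⟩
    have h1 : g = 1 := Subtype.ext (g.2.eq_one hx hg)
    rw [h1]
    exact (CG linf Y).one_mem
  · obtain ⟨l, hl1, hl2⟩ := exists_line (L := L) hg
    have hll : l ≠ linf := by
      rintro rfl
      exact hx hl2
    obtain ⟨Y, hY1, hY2⟩ := exists_point (P := P) hll
    exact ⟨Y, hY2, (mem_CG_iff hY2 hY1 hx hl2 g).1 hl1⟩

theorem CG_conj {Y : P} (hY : Y ∈ linf) {g : TG (P := P) linf} (hg : g ∈ CG linf Y)
    (h : TG (P := P) linf) : h * g * h⁻¹ ∈ CG linf Y := by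
  intro l hl x hx
  obtain ⟨l', hl'⟩ := h⁻¹.2.1.line l
  have h1 : Y ∈ l' := by
    have := (hl' Y).2 hl
    rwa [h⁻¹.2.fix hY] at this
  have h2 : g.1 ((h⁻¹).1 x) ∈ l' := hg l' h1 _ ((hl' x).2 hx)
  have h3 := (hl' (h.1 (g.1 ((h⁻¹).1 x))))
  have h4 : (h⁻¹).1 (h.1 (g.1 ((h⁻¹).1 x))) = g.1 ((h⁻¹).1 x) := by
    change (h.1)⁻¹ (h.1 _) = _
    rw [perm_inv_apply]
  rw [h4] at h3
  exact h3.1 h2

theorem comm_of_ne {Y Y' : P} (hY : Y ∈ linf) (hY' : Y' ∈ linf) (hne : Y ≠ Y')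
    {g h : TG (P := P) linf} (hg : g ∈ CG linf Y) (hh : h ∈ CG linf Y') : g * h = h * g := by
  have h1 : g * h * g⁻¹ * h⁻¹ = 1 := by
    refine CG_inf hY hY' hne ?_ ?_
    · have h2 : g * h * g⁻¹ * h⁻¹ = g * (h * g⁻¹ * h⁻¹) := by group
      rw [h2]
      exact (CG linf Y).mul_mem hg (CG_conj hY ((CG linf Y).inv_mem hg) h)
    · exact (CG linf Y').mul_mem (CG_conj hY' hh g) ((CG linf Y').inv_mem hh)
  calc g * h = (g * h * g⁻¹ * h⁻¹) * (h * g) := by group
    _ = h * g := by rw [h1, one_mul]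

section

variable (htr : ∀ a b : P, a ∉ linf → b ∉ linf → ∃ g : TG (P := P) linf, g.1 a = b)

include htr

theorem CG_nontrivial {Y : P} (hY : Y ∈ linf) : ∃ h ∈ CG linf Y, h ≠ (1 : TG (P := P) linf) := by
  obtain ⟨x, hx⟩ := Nondegenerate.exists_point (P := P) linf
  have hxY : x ≠ Y := by
    rintro rfl
    exact hx hY
  obtain ⟨l, hl1, hl2⟩ := exists_line (L := L) hxY
  obtain ⟨y, hy, hyx, hyY⟩ := third_point (P := P) l x Y
  have hyl : y ∉ linf := by
    intro h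
    exact hx ((line_unique hyY hy hl2 h hY) ▸ hl1)
  obtain ⟨g, hg⟩ := htr x y hx hyl
  refine ⟨g, (mem_CG_iff hY hl2 hx hl1 g).1 (hg ▸ hy), ?_⟩
  rintro rfl
  exact hyx hg.symm

theorem TG_comm (g g' : TG (P := P) linf) : g * g' = g' * g := by
  obtain ⟨Y, hY, hg⟩ := CG_exists g
  obtain ⟨Y', hY', hg'⟩ := CG_exists g'
  by_cases hne : Y = Y'
  · subst hne
    obtain ⟨Z, hZ, hZY, -⟩ := third_point (P := P) linf Y Y
    obtain ⟨h, hh, hh1⟩ := CG_nontrivial htr hZ
    have h1 : g * h ∉ CG linf Y := by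
      intro h2
      have h3 : h ∈ CG linf Y := ((CG linf Y).mul_mem_cancel_left hg).1 h2
      exact hh1 (CG_inf hZ hY hZY hh h3)
    obtain ⟨T, hT, hgT⟩ := CG_exists (g * h)
    have hTY : T ≠ Y := by
      rintro rfl
      exact h1 hgT
    have h2 : g * h * g' = g' * (g * h) := comm_of_ne hT hY hTY hgT hg'
    have h3 : h * g' = g' * h := comm_of_ne hZ hY hZY hh hg'
    have h4 : g * g' * h = g' * g * h := by
      rw [mul_assoc, ← h3, ← mul_assoc, h2, mul_assoc]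
    exact mul_right_cancel h4
  · exact comm_of_ne hY hY' hne hg hg'

theorem TG_exponent {p : ℕ} [Fact p.Prime] (hp : p ∣ Nat.card (TG (P := P) linf))
    (g : TG (P := P) linf) : g ^ p = 1 := by
  classical
  have hcomm := TG_comm htr
  have hpow : ∀ (a b : TG (P := P) linf) (n : ℕ), (a * b) ^ n = a ^ n * b ^ n := fun a b n =>
    (show Commute a b from hcomm a b).mul_pow n
  -- if `a ^ p = 1`, `a ≠ 1` has centre `Y`, then `h ^ p = 1` for `h` with another centre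
  have key : ∀ (Y Y' : P), Y ∈ linf → Y' ∈ linf → Y ≠ Y' → ∀ a h : TG (P := P) linf,
      a ∈ CG linf Y → h ∈ CG linf Y' → a ≠ 1 → a ^ p = 1 → h ^ p = 1 := by
    intro Y Y' hY hY' hne a h ha hh ha1 hap
    obtain ⟨Z, hZ, hZa⟩ := CG_exists (a * h)
    have hZY' : Z ≠ Y' := by
      rintro rfl
      have h1 : a ∈ CG linf Z := ((CG linf Z).mul_mem_cancel_right hh).1 hZa
      exact ha1 (CG_inf hY hY' hne ha h1)
    have h2 := (CG linf Z).pow_mem hZa p
    rw [hpow, hap, one_mul] at h2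
    exact CG_inf hZ hY' hZY' h2 ((CG linf Y').pow_mem hh p)
  haveI : Finite (TG (P := P) linf) := inferInstance
  obtain ⟨a, ha⟩ := exists_prime_orderOf_dvd_card' p hp
  have hap : a ^ p = 1 := by
    rw [← ha]
    exact pow_orderOf_eq_one a
  have ha1 : a ≠ 1 := by
    rintro rfl
    rw [orderOf_one] at ha
    exact (Fact.out : p.Prime).one_lt.ne ha
  obtain ⟨Y, hY, haY⟩ := CG_exists a
  obtain ⟨Y', hY', hg⟩ := CG_exists g
  by_cases hne : Y = Y'
  · subst hne
    obtain ⟨Z, hZ, hZY, -⟩ := third_point (P := P) linf Y Y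
    obtain ⟨h, hh, hh1⟩ := CG_nontrivial htr hZ
    have h1 := key Y Z hY hZ hZY.symm a h haY hh ha1 hap
    exact key Z Y hZ hY hZY h g hh hg hh1 h1
  · exact key Y Y' hY hY' hne a g haY hg ha1 hap

end

end Pool.Agent.H58.TP
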